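import Pool.Agent.J4H80.CU.Fin

/-! Piecewise `C¹` curves are locally monotone or have cusps. -/

set_option autoImplicit false
open Complex Set Topology Metric

namespace Pool.Agent.J4H80.CU

open Pool.Agent.Y535.PEG (Mon)

variable {c : ℝ → ℂ}

theorem strict_of_deriv {d : ℝ → ℂ} {a b t : ℝ} (ht : t ∈ Icc a b)
    (hd : ContinuousOn d (Icc a b)) (h : ∀ s ∈ Icc a b, HasDerivWithinAt c (d s) (Icc a b) s)
    {ε : ℝ} (hε : 0 < ε) : ∃ ρ > 0, ∀ x y, x ∈ Icc a b → y ∈ Icc a b → |x - t| < ρ → |y - t| < ρ →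
      x < y → ‖c y - c x - (y - x) * d t‖ ≤ ε * (y - x) := by
  obtain ⟨ρ, hρ, H⟩ := Metric.continuousOn_iff.1 hd t ht ε hε
  refine ⟨ρ, hρ, fun x y hx hy hxt hyt hxy => ?_⟩
  have hsub : Icc x y ⊆ Icc a b := Icc_subset_Icc hx.1 hy.2
  have h1 : ∀ s ∈ Icc x y, HasDerivWithinAt (fun s : ℝ => c s - (s : ℂ) * d t) (d s - 1 * d t)
      (Icc x y) s := by
    intro s hs
    refine ((h s (hsub hs)).mono hsub).sub ?_
    have h2 : HasDerivWithinAt (fun s : ℝ => (s : ℂ)) 1 (Icc x y) s :=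
      (Complex.ofRealCLM.hasDerivAt (x := s)).hasDerivWithinAt
    exact h2.mul_const (d t)
  have h2 : ∀ s ∈ Icc x y, ‖d s - 1 * d t‖ ≤ ε := by
    intro s hs
    rw [one_mul, ← dist_eq_norm]
    refine (H s (hsub hs) ?_).le
    rw [Real.dist_eq]
    rw [abs_lt] at hxt hyt ⊢
    constructor <;> linarith [hs.1, hs.2]
  have := (convex_Icc x y).norm_image_sub_le_of_norm_hasDerivWithin_le h1 h2
    (left_mem_Icc.2 hxy.le) (right_mem_Icc.2 hxy.le)
  rw [Real.norm_of_nonneg (sub_nonneg.2 hxy.le)] at this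
  refine le_trans (le_of_eq ?_) this
  congr 1
  ring

/-- one-sided strict derivatives `u`, `v` different from zero -/
theorem mon_or_csp {t : ℝ} {u v : ℂ} (hu : u ≠ 0) (hv : v ≠ 0)
    (h1 : ∀ ε > 0, ∃ ρ > 0, ∀ x y, t - ρ < x → x < y → y ≤ t →
      ‖c y - c x - (y - x) * u‖ ≤ ε * (y - x))
    (h2 : ∀ ε > 0, ∃ ρ > 0, ∀ x y, t ≤ x → x < y → y < t + ρ →
      ‖c y - c x - (y - x) * v‖ ≤ ε * (y - x)) : Mon c t ∨ Csp c t := by
  have nu : 0 < ‖u‖ := norm_pos_iff.2 hu
  have nv : 0 < ‖v‖ := norm_pos_iff.2 hv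
  have half : ∀ (w z : ℂ) (e m : ℝ), 0 < m → 0 < (w * z).re → ∀ f : ℂ, ‖f - m * z‖ ≤ e * m →
      ‖w‖ * e < (w * z).re → 0 < (w * f).re := by
    intro w z e m hm hz f hf he
    have e1 : (w * f).re = m * (w * z).re + (w * (f - m * z)).re := by
      rw [← re_ofReal_mul, ← add_re]; congr 1; ring
    have e2 := (abs_le.1 (Complex.abs_re_le_norm (w * (f - m * z)))).1
    rw [norm_mul] at e2
    have e3 := mul_le_mul_of_nonneg_left hf (norm_nonneg w)
    have e4 := mul_lt_mul_of_pos_left he hm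
    rw [e1]
    linarith
  by_cases hopp : (‖u‖⁻¹ : ℂ) * u + (‖v‖⁻¹ : ℂ) * v = 0
  · right
    -- a cusp
    obtain ⟨ρ1, hρ1, H1⟩ := h1 (‖u‖ / 5) (by positivity)
    obtain ⟨ρ2, hρ2, H2⟩ := h2 (‖v‖ / 5) (by positivity)
    have hvu : v = -(((‖v‖ / ‖u‖ : ℝ) : ℂ) * u) := by
      have n1 : (‖u‖ : ℂ) ≠ 0 := by exact_mod_cast nu.ne'
      have n2 : (‖v‖ : ℂ) ≠ 0 := by exact_mod_cast nv.ne'
      push_cast
      field_simp at hopp ⊢
      linear_combination hopp
    set w : ℂ := (starRingEnd ℂ) u with hw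
    have hwu : w * u = ((‖u‖ ^ 2 : ℝ) : ℂ) := by
      rw [hw, mul_comm, Complex.mul_conj, Complex.normSq_eq_norm_sq]
    have nw : ‖w‖ = ‖u‖ := by rw [hw]; simp
    have gen : ∀ (z : ℂ) (a m : ℝ), 0 < m → 0 < a → w * z = ((‖u‖ * a : ℝ) : ℂ) → ∀ f : ℂ,
        ‖f - m * z‖ ≤ a / 5 * m → |(w * f).im| ≤ 1 / 4 * (w * f).re := by
      intro z a m hm ha hz f hf
      have e1 : w * f = ((m * (‖u‖ * a) : ℝ) : ℂ) + w * (f - m * z) := by
        push_cast
        push_cast at hz
        rw [← hz]; ring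
      have e2 := abs_le.1 (Complex.abs_re_le_norm (w * (f - m * z)))
      have e3 := abs_le.1 (Complex.abs_im_le_norm (w * (f - m * z)))
      have e4 : ‖w * (f - m * z)‖ ≤ ‖u‖ * (a / 5 * m) := by
        rw [norm_mul, nw]
        exact mul_le_mul_of_nonneg_left hf nu.le
      have e5 := mul_pos hm (mul_pos nu ha)
      have e6 : ‖u‖ * (a / 5 * m) = m * (‖u‖ * a) / 5 := by ring
      rw [e6] at e4
      rw [e1, add_re, add_im, ofReal_re, ofReal_im, zero_add, abs_le]
      constructor <;> linarith [e2.1, e2.2, e3.1, e3.2]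
    refine ⟨min ρ1 ρ2, lt_min hρ1 hρ2, w, 1 / 4, ?_, by norm_num, by norm_num, ?_, ?_⟩
    · rw [hw]; simpa using hu
    · intro x y hx hxy hy
      have m1 := min_le_left ρ1 ρ2
      have := H1 x y (by linarith) hxy hy
      refine gen u ‖u‖ (y - x) (by linarith) nu (by rw [hwu]; congr 1; ring) _ ?_
      push_cast
      exact this
    · intro x y hx hxy hy
      have m2 := min_le_right ρ1 ρ2
      have := H2 x y hx hxy (by linarith)
      refine gen (-v) ‖v‖ (y - x) (by linarith) nv ?_ _ ?_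
      · have e1 : w * -v = ((‖v‖ / ‖u‖ : ℝ) : ℂ) * (w * u) := by
          have : -v = ((‖v‖ / ‖u‖ : ℝ) : ℂ) * u := by
            rw [← neg_eq_iff_eq_neg] at hvu; exact hvu
          rw [this]; ring
        rw [e1, hwu, ← ofReal_mul]
        congr 1
        field_simp
      · push_cast
        rw [show c x - c y - ((y : ℂ) - x) * -v = -(c y - c x - (y - x) * v) by ring, norm_neg]
        exact this
  · left
    set a : ℂ := (‖u‖⁻¹ : ℂ) * u with ha
    set b : ℂ := (‖v‖⁻¹ : ℂ) * v with hb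
    have na : ‖a‖ = 1 := by
      rw [ha, norm_mul]; simp [nu.ne']
    have nb : ‖b‖ = 1 := by
      rw [hb, norm_mul]; simp [nv.ne']
    set w : ℂ := (starRingEnd ℂ) (a + b) with hw
    have hsq : 0 < ‖a + b‖ ^ 2 := pow_pos (norm_pos_iff.2 hopp) 2
    have q1 : a.re ^ 2 + a.im ^ 2 = 1 := by
      have : ‖a‖ ^ 2 = 1 := by rw [na]; norm_num
      rw [← Complex.normSq_eq_norm_sq, Complex.normSq_apply] at this
      linarith
    have q2 : b.re ^ 2 + b.im ^ 2 = 1 := by
      have : ‖b‖ ^ 2 = 1 := by rw [nb]; norm_num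
      rw [← Complex.normSq_eq_norm_sq, Complex.normSq_apply] at this
      linarith
    rw [← Complex.normSq_eq_norm_sq, Complex.normSq_apply, add_re, add_im] at hsq
    have ra : 0 < (w * a).re := by
      rw [hw]; simp only [map_add, mul_re, add_re, add_im, conj_re, conj_im]; nlinarith
    have rb : 0 < (w * b).re := by
      rw [hw]; simp only [map_add, mul_re, add_re, add_im, conj_re, conj_im]; nlinarith
    have ru : 0 < (w * u).re := by
      have : w * u = (‖u‖ : ℂ) * (w * a) := by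
        have n1 : (‖u‖ : ℂ) ≠ 0 := by exact_mod_cast nu.ne'
        rw [ha]; field_simp
      rw [this, re_ofReal_mul]
      exact mul_pos nu ra
    have rv : 0 < (w * v).re := by
      have : w * v = (‖v‖ : ℂ) * (w * b) := by
        have n1 : (‖v‖ : ℂ) ≠ 0 := by exact_mod_cast nv.ne'
        rw [hb]; field_simp
      rw [this, re_ofReal_mul]
      exact mul_pos nv rb
    have hw0 : 0 < ‖w‖ := norm_pos_iff.2 (by rintro h; rw [h] at ra; simp at ra)
    obtain ⟨ρ1, hρ1, H1⟩ := h1 ((w * u).re / (2 * ‖w‖)) (by positivity)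
    obtain ⟨ρ2, hρ2, H2⟩ := h2 ((w * v).re / (2 * ‖w‖)) (by positivity)
    have k1 : ∀ x y, t - ρ1 < x → x < y → y ≤ t → 0 < (w * (c y - c x)).re := by
      intro x y hx hxy hy
      refine half w u _ (y - x) (by linarith) ru _ (by push_cast; exact H1 x y hx hxy hy) ?_
      rw [mul_div_assoc', mul_comm 2, div_lt_iff₀ (by positivity)]
      nlinarith [mul_pos hw0 ru]
    have k2 : ∀ x y, t ≤ x → x < y → y < t + ρ2 → 0 < (w * (c y - c x)).re := by
      intro x y hx hxy hy
      refine half w v _ (y - x) (by linarith) rv _ (by push_cast; exact H2 x y hx hxy hy) ?_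
      rw [mul_div_assoc', mul_comm 2, div_lt_iff₀ (by positivity)]
      nlinarith [mul_pos hw0 rv]
    refine ⟨min ρ1 ρ2, lt_min hρ1 hρ2, w, fun x y hx hy hxy => ?_⟩
    have m1 := min_le_left ρ1 ρ2
    have m2 := min_le_right ρ1 ρ2
    rw [abs_lt] at hx hy
    rcases le_total y t with g | g
    · exact k1 x y (by linarith) hxy g
    · rcases le_total t x with g' | g'
      · exact k2 x y g' hxy (by linarith)
      · rcases lt_or_eq_of_le g' with p | p
        · rcases lt_or_eq_of_le g with p' | p'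
          · have e1 := k1 x t (by linarith) p le_rfl
            have e2 := k2 t y le_rfl p' (by linarith)
            have : w * (c y - c x) = w * (c t - c x) + w * (c y - c t) := by ring
            rw [this, add_re]; linarith
          · rw [← p']; exact k1 x t (by linarith) p le_rfl
        · exact k2 x y (by linarith) hxy (by linarith)

/-- on `[a, b]` the curve is continuously differentiable with a derivative different from zero -/
def C1On (c : ℝ → ℂ) (a b : ℝ) : Prop := ∃ d : ℝ → ℂ, ContinuousOn d (Icc a b) ∧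
  ∀ s ∈ Icc a b, d s ≠ 0 ∧ HasDerivWithinAt c (d s) (Icc a b) s

theorem C1On.case {t ρ : ℝ} (hρ : 0 < ρ) (h1 : C1On c (t - ρ) t) (h2 : C1On c t (t + ρ)) :
    Mon c t ∨ Csp c t := by
  obtain ⟨d, dc, hd⟩ := h1
  obtain ⟨e, ec, he⟩ := h2
  have t1 : t ∈ Icc (t - ρ) t := ⟨by linarith, le_rfl⟩
  have t2 : t ∈ Icc t (t + ρ) := ⟨le_rfl, by linarith⟩
  refine mon_or_csp (hd t t1).1 (he t t2).1 (fun ε hε => ?_) (fun ε hε => ?_)
  · obtain ⟨r, hr, H⟩ := strict_of_deriv t1 dc (fun s hs => (hd s hs).2) hε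
    refine ⟨min r ρ, lt_min hr hρ, fun x y hx hxy hy => ?_⟩
    have m1 := min_le_left r ρ
    have m2 := min_le_right r ρ
    exact H x y ⟨by linarith, by linarith⟩ ⟨by linarith, hy⟩
      (by rw [abs_lt]; constructor <;> linarith) (by rw [abs_lt]; constructor <;> linarith) hxy
  · obtain ⟨r, hr, H⟩ := strict_of_deriv t2 ec (fun s hs => (he s hs).2) hε
    refine ⟨min r ρ, lt_min hr hρ, fun x y hx hxy hy => ?_⟩
    have m1 := min_le_left r ρ
    have m2 := min_le_right r ρ
    exact H x y ⟨hx, by linarith⟩ ⟨by linarith, by linarith⟩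
      (by rw [abs_lt]; constructor <;> linarith) (by rw [abs_lt]; constructor <;> linarith) hxy

end Pool.Agent.J4H80.CU
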