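import Pool.Agent.J4H80.CU.Geo

/-! The charge of a cusp, in normal position: the number of half turns is the same on both sides. -/

set_option autoImplicit false
open Complex Set Topology Metric

namespace Pool.Agent.J4H80.CU

open Pool.Agent.H763R2 Pool.Agent.H763R2.An Pool.Agent.Y535.PEG
open Pool.Agent.H763R2.Dm (NoSq)
open Pool.Agent.H763R2.Sq (Dv Cv)
open Pool.Agent.Y450.Stab (Lip ESq)

variable {c : ℝ → ℂ} {T B : ℝ → ℝ} {κ δ : ℝ} {θ : ℝ → ℝ → ℝ} {g : ℤ}

/-- the two branches near the cusp -/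
structure Br (c : ℝ → ℂ) (T B : ℝ → ℝ) (δ a t b : ℝ) : Prop where
  hat : a < t
  htb : t < b
  hba : b < a + 1
  c0 : c t = 0
  up : ∀ s, a ≤ s → s ≤ t → (c s).im = T (c s).re ∧ -δ ≤ (c s).re ∧ (c s).re ≤ 0
  upm : ∀ s s', a ≤ s → s < s' → s' ≤ t → (c s).re < (c s').re
  lo : ∀ s, t ≤ s → s ≤ b → (c s).im = B (c s).re ∧ -δ ≤ (c s).re ∧ (c s).re ≤ 0
  lom : ∀ s s', t ≤ s → s < s' → s' ≤ b → (c s').re < (c s).re

theorem DD_co {x y : ℝ} : DD c x y = ⟨(c x).re - ((c y).im - (c x).im),
    (c x).im + ((c y).re - (c x).re)⟩ := by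
  apply Complex.ext <;> simp [DD, Dv, sub_eq_add_neg]

theorem CC_co {x y : ℝ} : CC c x y = ⟨(c y).re - ((c y).im - (c x).im),
    (c y).im + ((c y).re - (c x).re)⟩ := by
  apply Complex.ext <;> simp [CC, Cv, sub_eq_add_neg]

namespace Br

variable {a t b : ℝ}

theorem left (W : Br c T B δ a t b) (P : Pos c T B κ δ) (A : Ang c (mgc c) θ g) (L : Loop c)
    {la : ℤ} (hla : KL θ a la) : ⌊θ a t / Real.pi⌋ = la := by
  have d0 := P.δ0
  have k0 := P.k0
  have k1 := P.k1
  have κh := P.κh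
  have κ1 := P.κ1
  have h1 := W.hat
  have h2 := W.htb
  have h3 := W.hba
  obtain ⟨ρ, hρ, H⟩ := hla
  set y0 := a + min (ρ / 2) (t - a) with hy0
  have m0 : 0 < min (ρ / 2) (t - a) := lt_min (by positivity) (by linarith)
  have m1 := min_le_left (ρ / 2) (t - a)
  have m2 := min_le_right (ρ / 2) (t - a)
  have hf : ContinuousOn (fun y => θ a y) (Ioc a t) := by
    refine A.cont.comp (f := fun y : ℝ => (a, y)) (by fun_prop) ?_
    rintro y ⟨e1, e2⟩
    exact ⟨e1, by simp only; linarith⟩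
  have key : ∀ y ∈ Ioc a t, Real.sin (θ a y) ≠ 0 := by
    rintro y ⟨e1, e2⟩ hs
    obtain ⟨r, hr, -, e⟩ := A.ex a y e1 (by linarith)
    rw [hs, mul_zero] at e
    have hm := ((mgc_sg L).zero L).1 e
    rw [CC_co] at hm
    obtain ⟨u1, u2, u3⟩ := W.up a le_rfl h1.le
    obtain ⟨v1, v2, v3⟩ := W.up y e1.le e2
    have huv := W.upm a y le_rfl e1 e2
    rw [u1, v1] at hm
    set u := (c a).re
    set v := (c y).re
    have hT := P.lT v u
    rw [abs_of_pos (by linarith : 0 < v - u)] at hT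
    have hT' := abs_le.1 hT
    have hTv := abs_le.1 (P.absT' (x := v) (r := δ) (abs_le.2 ⟨v2, by linarith⟩))
    have hkd : κ * δ ≤ δ / 2 := by nlinarith
    have hku : κ * (v - u) ≤ (v - u) / 2 := by nlinarith
    refine P.above_ne ?_ ?_ ?_ hm
    · rw [abs_le]; constructor <;> simp only <;> linarith
    · rw [abs_le]; constructor <;> simp only <;> linarith
    · simp only
      have h5 := (abs_le.1 (P.lT (v - (T v - T u)) v)).2
      rw [show v - (T v - T u) - v = -(T v - T u) by ring, abs_neg] at h5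
      have h6 := mul_le_mul_of_nonneg_left hT k0
      have h7 : κ * (κ * (v - u)) < v - u := by nlinarith
      linarith
  have := floor_pre isPreconnected_Ioc hf key (z := t) (w := y0) ⟨h1, le_rfl⟩
    ⟨by rw [hy0]; linarith, by rw [hy0]; linarith⟩
  rw [this]
  refine H a y0 (by simpa using hρ) ?_ (by rw [hy0]; linarith)
  rw [hy0, add_sub_cancel_left, abs_of_pos m0]
  linarith

theorem right (W : Br c T B δ a t b) (P : Pos c T B κ δ) (A : Ang c (mgc c) θ g) (L : Loop c)
    {lb : ℤ} (hlb : KL θ b lb) : ⌊θ t b / Real.pi⌋ = lb := by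
  have d0 := P.δ0
  have k0 := P.k0
  have k1 := P.k1
  have κh := P.κh
  have κ1 := P.κ1
  have h1 := W.hat
  have h2 := W.htb
  have h3 := W.hba
  obtain ⟨ρ, hρ, H⟩ := hlb
  set x0 := b - min (ρ / 2) (b - t) with hx0
  have m0 : 0 < min (ρ / 2) (b - t) := lt_min (by positivity) (by linarith)
  have m1 := min_le_left (ρ / 2) (b - t)
  have m2 := min_le_right (ρ / 2) (b - t)
  have hf : ContinuousOn (fun x => θ x b) (Ico t b) := by
    refine A.cont.comp (f := fun x : ℝ => (x, b)) (by fun_prop) ?_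
    rintro x ⟨e1, e2⟩
    exact ⟨e2, by simp only; linarith⟩
  have key : ∀ x ∈ Ico t b, Real.sin (θ x b) ≠ 0 := by
    rintro x ⟨e1, e2⟩ hs
    obtain ⟨r, hr, -, e⟩ := A.ex x b e2 (by linarith)
    rw [hs, mul_zero] at e
    have hm := ((mgc_sg L).zero L).1 e
    rw [CC_co] at hm
    obtain ⟨u1, u2, u3⟩ := W.lo x e1 e2.le
    obtain ⟨v1, v2, v3⟩ := W.lo b h2.le le_rfl
    have huv := W.lom x b e1 e2 le_rfl
    rw [u1, v1] at hm
    set u := (c x).re
    set v := (c b).re
    have hT := P.lB v u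
    rw [abs_of_neg (by linarith : v - u < 0)] at hT
    have hT' := abs_le.1 hT
    have hTv := abs_le.1 (P.absB' (x := v) (r := δ) (abs_le.2 ⟨v2, by linarith⟩))
    have hkd : κ * δ ≤ δ / 2 := by nlinarith
    have hku : κ * -(v - u) ≤ -(v - u) / 2 := by nlinarith
    refine P.below_ne ?_ ?_ ?_ hm
    · rw [abs_le]; constructor <;> simp only <;> linarith
    · rw [abs_le]; constructor <;> simp only <;> linarith
    · simp only
      have h5 := (abs_le.1 (P.lB (v - (B v - B u)) v)).1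
      rw [show v - (B v - B u) - v = -(B v - B u) by ring, abs_neg] at h5
      have h6 := mul_le_mul_of_nonneg_left hT k0
      have h7 : κ * (κ * -(v - u)) < -(v - u) := by nlinarith
      linarith
  have := floor_pre isPreconnected_Ico hf key (z := t) (w := x0) ⟨le_rfl, h2⟩
    ⟨by rw [hx0]; linarith, by rw [hx0]; linarith⟩
  rw [this]
  refine H x0 b ?_ (by simpa using hρ) (by rw [hx0]; linarith)
  rw [hx0, show b - min (ρ / 2) (b - t) - b = -min (ρ / 2) (b - t) by ring, abs_neg,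
    abs_of_pos m0]
  linarith

/-- the number of half turns of the short chords is the same before and after the cusp -/
theorem core (W : Br c T B δ a t b) (P : Pos c T B κ δ) (A : Ang c (mgc c) θ g) (L : Loop c)
    (nosq : NoSq (range c)) {la lb : ℤ} (hla : KL θ a la) (hlb : KL θ b lb) : la = lb := by
  have d0 := P.δ0
  have k0 := P.k0
  have k1 := P.k1
  have κh := P.κh
  have κ1 := P.κ1
  have h1 := W.hat
  have h2 := W.htb
  have h3 := W.hba
  rw [← W.left P A L hla, ← W.right P A L hlb]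
  have hout : mgc c ⟨δ, 0⟩ ≠ 0 := by
    intro h
    have := (P.mC _ (((mgc_sg L).zero L).1 h) (by simp only; rw [abs_of_pos d0]; linarith)
      (by simp only; rw [abs_zero]; linarith)).1
    simp only at this
    linarith
  obtain ⟨σ, hσ, hσ0⟩ : ∃ σ : ℝ, (σ = 1 ∨ σ = -1) ∧ 0 < σ * mgc c ⟨δ, 0⟩ := by
    rcases lt_or_gt_of_ne hout with h | h
    · exact ⟨-1, Or.inr rfl, by linarith⟩
    · exact ⟨1, Or.inl rfl, by linarith⟩
  have sg : ∀ {x : ℝ}, 0 < x * mgc c ⟨δ, 0⟩ → 0 < σ * x := fun {x} hx => by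
    rw [mul_comm] at hx
    exact sign_trans hσ0 hx
  set V : Set (ℝ × ℝ) := ({a} ×ˢ Icc t b) ∪ (Icc a t ×ˢ {b}) with hV
  have hVp : IsPreconnected V := by
    refine IsPreconnected.union (a, b) ?_ ?_ (isPreconnected_singleton.prod isPreconnected_Icc)
      (isPreconnected_Icc.prod isPreconnected_singleton)
    · exact ⟨rfl, h2.le, le_rfl⟩
    · exact ⟨⟨le_rfl, h1.le⟩, rfl⟩
  have hVm : ∀ p ∈ V, a ≤ p.1 ∧ p.1 ≤ t ∧ t ≤ p.2 ∧ p.2 ≤ b ∧ ¬ (p.1 = t ∧ p.2 = t) := by
    rintro ⟨x, y⟩ (⟨e1, e2⟩ | ⟨e1, e2⟩)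
    · simp only [mem_singleton_iff] at e1
      subst e1
      exact ⟨le_rfl, h1.le, e2.1, e2.2, fun h => h1.ne h.1⟩
    · simp only [mem_singleton_iff] at e2
      subst e2
      exact ⟨e1.1, e1.2, h2.le, le_rfl, fun h => h2.ne' h.2⟩
  have hVU : V ⊆ UU := by
    intro p hp
    obtain ⟨e1, e2, e3, e4, e5⟩ := hVm p hp
    refine ⟨?_, by linarith⟩
    rcases lt_or_eq_of_le (e2.trans e3) with h | h
    · exact h
    · exact absurd ⟨le_antisymm e2 (by linarith), le_antisymm (by linarith) e3⟩ e5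
  have hf : ContinuousOn (fun p : ℝ × ℝ => θ p.1 p.2) V := A.cont.mono hVU
  obtain ⟨u1, u2, u3⟩ := W.up a le_rfl h1.le
  obtain ⟨v1, v2, v3⟩ := W.lo b h2.le le_rfl
  have u3' : (c a).re < 0 := by
    have := W.upm a t le_rfl h1 le_rfl
    rwa [W.c0, zero_re] at this
  have v3' : (c b).re < 0 := by
    have := W.lom t b le_rfl h2 le_rfl
    rwa [W.c0, zero_re] at this
  have hkd : κ * δ ≤ δ / 2 := by nlinarith
  -- the end `(a, t)`
  have ea : 0 < σ * Real.cos (θ a t) ∧ 0 < σ * Real.sin (θ a t) := by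
    obtain ⟨r, hr, e1, e2⟩ := A.ex a t h1 (by linarith)
    rw [DD_co, W.c0] at e1
    rw [CC_co, W.c0] at e2
    simp only [zero_re, zero_im, u1, zero_sub, sub_neg_eq_add, zero_add] at e1 e2
    set u := (c a).re
    have hTa := P.absT u
    rw [abs_of_neg u3'] at hTa
    have hTu := abs_le.1 hTa
    have hTd : κ * -u ≤ δ / 2 := by nlinarith
    have s1 := sg (P.above L (z := ⟨u + T u, T u + -u⟩)
      (by rw [abs_le]; constructor <;> simp only <;> linarith)
      (by rw [abs_le]; constructor <;> simp only <;> linarith) (by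
        simp only
        have h5 := (abs_le.1 (P.lT (u + T u) u)).2
        rw [add_sub_cancel_left] at h5
        have h6 := mul_le_mul_of_nonneg_left hTa k0
        nlinarith))
    have s2 := sg (P.above L (z := ⟨T u, -u⟩)
      (by rw [abs_le]; constructor <;> simp only <;> linarith)
      (by rw [abs_le]; constructor <;> simp only <;> linarith) (by
        simp only
        have h5 := (abs_le.1 (P.absT (T u))).2
        have h6 := mul_le_mul_of_nonneg_left hTa k0
        nlinarith))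
    rw [e1] at s1
    rw [e2] at s2
    rw [show σ * (r * Real.cos (θ a t)) = r * (σ * Real.cos (θ a t)) by ring] at s1
    rw [show σ * (r * Real.sin (θ a t)) = r * (σ * Real.sin (θ a t)) by ring] at s2
    exact ⟨(mul_pos_iff_of_pos_left hr).1 s1, (mul_pos_iff_of_pos_left hr).1 s2⟩
  -- the end `(t, b)`
  have eb : 0 < σ * Real.cos (θ t b) ∧ 0 < σ * Real.sin (θ t b) := by
    obtain ⟨r, hr, e1, e2⟩ := A.ex t b h2 (by linarith)
    rw [DD_co, W.c0] at e1
    rw [CC_co, W.c0] at e2
    simp only [zero_re, zero_im, v1, sub_zero, zero_sub, zero_add] at e1 e2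
    set v := (c b).re
    have hTa := P.absB v
    rw [abs_of_neg v3'] at hTa
    have hTu := abs_le.1 hTa
    have hTd : κ * -v ≤ δ / 2 := by nlinarith
    have s1 := sg (P.below L (z := ⟨-B v, v⟩)
      (by rw [abs_le]; constructor <;> simp only <;> linarith)
      (by rw [abs_le]; constructor <;> simp only <;> linarith) (by
        simp only
        have h5 := (abs_le.1 (P.absB (-B v))).1
        rw [abs_neg] at h5
        have h6 := mul_le_mul_of_nonneg_left hTa k0
        nlinarith))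
    have s2 := sg (P.below L (z := ⟨v - B v, B v + v⟩)
      (by rw [abs_le]; constructor <;> simp only <;> linarith)
      (by rw [abs_le]; constructor <;> simp only <;> linarith) (by
        simp only
        have h5 := (abs_le.1 (P.lB (v - B v) v)).1
        rw [show v - B v - v = -B v by ring, abs_neg] at h5
        have h6 := mul_le_mul_of_nonneg_left hTa k0
        nlinarith))
    rw [e1] at s1
    rw [e2] at s2
    rw [show σ * (r * Real.cos (θ t b)) = r * (σ * Real.cos (θ t b)) by ring] at s1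
    rw [show σ * (r * Real.sin (θ t b)) = r * (σ * Real.sin (θ t b)) by ring] at s2
    exact ⟨(mul_pos_iff_of_pos_left hr).1 s1, (mul_pos_iff_of_pos_left hr).1 s2⟩
  have hforb : ∀ p ∈ V, ¬ (Real.cos (θ p.1 p.2) = 0 ∧ σ * Real.sin (θ p.1 p.2) < 0) := by
    rintro ⟨x, y⟩ hp ⟨hc0, hs0⟩
    obtain ⟨e1, e2, e3, e4, e5⟩ := hVm _ hp
    have hU := hVU hp
    simp only at hc0 hs0 e1 e2 e3 e4 e5
    obtain ⟨r, hr, q1, q2⟩ := A.ex x y hU.1 hU.2
    rw [hc0, mul_zero] at q1
    have hm := ((mgc_sg L).zero L).1 q1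
    rw [DD_co] at hm
    rw [CC_co] at q2
    obtain ⟨x1, x2, x3⟩ := W.up x e1 e2
    obtain ⟨y1, y2, y3⟩ := W.lo y e3 e4
    rw [x1, y1] at hm q2
    set u := (c x).re with hu
    set v := (c y).re with hv
    have hne : ¬ (u = 0 ∧ v = 0) := by
      rintro ⟨g1, g2⟩
      refine e5 ⟨?_, ?_⟩
      · by_contra hx
        have := W.upm x t e1 (lt_of_le_of_ne e2 hx) le_rfl
        rw [W.c0, zero_re, ← hu, g1] at this
        exact lt_irrefl _ this
      · by_contra hy
        have := W.lom t y le_rfl (lt_of_le_of_ne e3 (Ne.symm hy)) e4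
        rw [W.c0, zero_re, ← hv, g2] at this
        exact lt_irrefl _ this
    have key := P.forb nosq x2 x3 y2 y3 hne (by
      rw [show u + (T u - B v) = u - (B v - T u) by ring]; exact hm)
    have hTu := abs_le.1 (P.absT' (x := u) (r := δ) (abs_le.2 ⟨x2, by linarith⟩))
    have hBv := abs_le.1 (P.absB' (x := v) (r := δ) (abs_le.2 ⟨y2, by linarith⟩))
    have s1 := sg (P.below L (z := ⟨v - (B v - T u), B v + (v - u)⟩)
      (by rw [abs_le]; constructor <;> simp only <;> linarith)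
      (by rw [abs_le]; constructor <;> simp only <;> linarith) (by
        simp only
        rw [show v - (B v - T u) = v + (T u - B v) by ring]
        exact key))
    rw [q2, show σ * (r * Real.sin (θ x y)) = r * (σ * Real.sin (θ x y)) by ring] at s1
    have := (mul_pos_iff_of_pos_left hr).1 s1
    linarith
  exact quad hVp hf hσ hforb (z := (a, t)) (w := (t, b))
    (Or.inl ⟨rfl, le_rfl, h2.le⟩) (Or.inr ⟨⟨h1.le, le_rfl⟩, rfl⟩) ea.1 ea.2 eb.1 eb.2

end Br

end Pool.Agent.J4H80.CU
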