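import Pool.Agent.J4H80.CU.Norm

/-! Inscribed squares in curves that are locally monotone or have a cusp at each parameter. -/

set_option autoImplicit false
open Complex Set Topology Metric

namespace Pool.Agent.J4H80.CU

open Pool.Agent.H763R2 Pool.Agent.H763R2.An Pool.Agent.Y535.PEG Pool.Agent.W675.Peg
open Pool.Agent.TH569.Peg Pointwise
open Pool.Agent.H763R2.Dm (NoSq)
open Pool.Agent.H763R2.Sq (Dv Cv)

variable {c : ℝ → ℂ} {κ δ : ℝ} {θ : ℝ → ℝ → ℝ} {g : ℤ}

/-- the curve moved by a similarity -/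
def mv (c : ℝ → ℂ) (w p : ℂ) : ℝ → ℂ := fun s => w * (c s - p)

theorem mv_loop (L : Loop c) (w p : ℂ) : Loop (mv c w p) := by
  have := L.cont
  refine ⟨by unfold mv; fun_prop, fun s => ?_⟩
  unfold mv
  rw [L.per]

theorem mv_inj (J : Inj c) {w : ℂ} (hw : w ≠ 0) (p : ℂ) : Inj (mv c w p) := by
  intro x y h1 h2 h
  unfold mv at h
  have := mul_left_cancel₀ hw h
  exact J x y h1 h2 (by linear_combination this)

theorem mv_sub (w p : ℂ) (x y : ℝ) : mv c w p y - mv c w p x = w * (c y - c x) := by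
  unfold mv; ring

theorem mv_range (w p : ℂ) : range (mv c w p) = (fun z => w * (z - p)) '' range c := by
  ext z
  constructor
  · rintro ⟨s, rfl⟩; exact ⟨c s, ⟨s, rfl⟩, rfl⟩
  · rintro ⟨_, ⟨s, rfl⟩, rfl⟩; exact ⟨s, rfl⟩

theorem mv_nosq {w : ℂ} (hw : w ≠ 0) (p : ℂ) (nosq : NoSq (range c)) :
    NoSq (range (mv c w p)) := by
  rintro ⟨z, v, hv, ⟨s1, e1⟩, ⟨s2, e2⟩, ⟨s3, e3⟩, ⟨s4, e4⟩⟩
  unfold mv at e1 e2 e3 e4
  have i1 : c s1 = z / w + p := by field_simp; linear_combination e1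
  have i2 : c s2 = z / w + p + v / w := by field_simp; linear_combination e2
  have i3 : c s3 = z / w + p + v / w + I * (v / w) := by field_simp; linear_combination e3
  have i4 : c s4 = z / w + p + I * (v / w) := by field_simp; linear_combination e4
  exact nosq ⟨z / w + p, v / w, div_ne_zero hv hw, ⟨s1, i1⟩, ⟨s2, i2⟩, ⟨s3, i3⟩, ⟨s4, i4⟩⟩

theorem mv_wc {w : ℂ} (hw : w ≠ 0) (p z : ℂ) (n : ℤ) :
    IsWc (mv c w p) (w * (z - p)) n ↔ IsWc c z n := by
  constructor
  · rintro ⟨k, hk, ek, e⟩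
    refine ⟨fun t => k t - log w, by fun_prop, fun t => ?_, by rw [← e]; ring⟩
    rw [exp_sub, ek, exp_log hw]
    unfold mv
    field_simp
    ring
  · rintro ⟨k, hk, ek, e⟩
    refine ⟨fun t => k t + log w, by fun_prop, fun t => ?_, by rw [← e]; ring⟩
    rw [exp_add, ek, exp_log hw]
    unfold mv
    ring

theorem mv_mgc {w : ℂ} (hw : w ≠ 0) (p z : ℂ) :
    mgc (mv c w p) (w * (z - p)) = ‖w‖ * mgc c z := by
  have e1 : infDist (w * (z - p)) (range (mv c w p)) = ‖w‖ * infDist z (range c) := by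
    have h1 := Metric.infDist_image (IsometryEquiv.subRight p).isometry (x := z) (t := range c)
    have h2 := infDist_smul₀ hw ((fun z => z - p) '' range c) (z - p)
    have h3 : w • ((fun z => z - p) '' range c) = range (mv c w p) := by
      rw [mv_range, ← image_smul, image_image]
      rfl
    rw [h3, smul_eq_mul] at h2
    rw [h2]
    congr 1
  have e2 : Odc (mv c w p) (w * (z - p)) ↔ Odc c z := by
    unfold Odc
    simp only [mv_wc hw]
  unfold mgc
  by_cases h : Odc c z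
  · rw [if_pos h, if_pos (e2.2 h), e1]
  · rw [if_neg h, if_neg (fun h' => h (e2.1 h')), e1]; ring

theorem mv_ang {w : ℂ} (hw : w ≠ 0) (p : ℂ) (A : Ang c (mgc c) θ g) :
    Ang (mv c w p) (mgc (mv c w p)) θ g where
  cont := A.cont
  per := A.per
  ex x y h1 h2 := by
    obtain ⟨ρ, hρ, e1, e2⟩ := A.ex x y h1 h2
    have hw0 : 0 < ‖w‖ := norm_pos_iff.2 hw
    refine ⟨‖w‖ * ρ, mul_pos hw0 hρ, ?_, ?_⟩
    · have : DD (mv c w p) x y = w * (DD c x y - p) := by
        unfold DD Pool.Agent.H763R2.Sq.Dv mv; ring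
      rw [this, mv_mgc hw, e1]; ring
    · have : CC (mv c w p) x y = w * (CC c x y - p) := by
        unfold CC Pool.Agent.H763R2.Sq.Cv mv; ring
      rw [this, mv_mgc hw, e2]; ring

/-- a cusp at the parameter `t` -/
def Csp (c : ℝ → ℂ) (t : ℝ) : Prop := ∃ ρ > 0, ∃ (w : ℂ) (κ : ℝ), w ≠ 0 ∧ 0 < κ ∧
  κ ^ 2 + 2 * κ < 1 ∧
  (∀ x y, t - ρ < x → x < y → y ≤ t → |(w * (c y - c x)).im| ≤ κ * (w * (c y - c x)).re) ∧
  (∀ x y, t ≤ x → x < y → y < t + ρ → |(w * (c x - c y)).im| ≤ κ * (w * (c x - c y)).re)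

/-- the charge of an arc around a cusp vanishes -/
theorem csp_zero (L : Loop c) (J : Inj c) (nosq : NoSq (range c)) (A : Ang c (mgc c) θ g) {t : ℝ}
    (H : Csp c t) : ∃ ρ > 0, ρ < 1 / 2 ∧ (∀ s, t - ρ < s → s < t → Cone c s) ∧
      (∀ s, t < s → s < t + ρ → Cone c s) ∧
      ∀ a b, t - ρ < a → a < t → t < b → b < t + ρ → ∀ la lb, KL θ a la → KL θ b lb → la = lb := by
  obtain ⟨ρ, hρ, w, κ, hw, k0, k1, h1, h2⟩ := H
  have κ1 : κ < 1 := by nlinarith
  have L' := mv_loop L w (c t)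
  have J' := mv_inj J hw (c t)
  have A' := mv_ang hw (c t) A
  have n' := mv_nosq hw (c t) nosq
  obtain ⟨f1, f2, δ, ρ', hρρ, R⟩ := exists_raw L' J' (t := t) (ρ := ρ) (κ := κ) (by simp [mv]) hρ k0
    k1 (fun x y e1 e2 e3 => by rw [mv_sub]; exact h1 x y e1 e2 e3)
    (fun x y e1 e2 e3 => by rw [mv_sub]; exact h2 x y e1 e2 e3)
  have r0 := R.ρ0
  have r1 := R.ρ1
  have C1 : ∀ s, t - ρ' < s → s < t → Cone c s := by
    intro s e1 e2
    refine ⟨min (s - (t - ρ')) (t - s), lt_min (by linarith) (by linarith), w, fun x y hx hy hxy => ?_⟩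
    have hx' := abs_lt.1 (lt_min_iff.1 hx).1
    have hy' := abs_lt.1 (lt_min_iff.1 hy).2
    have g := h1 x y (by linarith) hxy (by linarith)
    have g2 := R.n1 x y (by linarith) hxy (by linarith)
    have g3 : 0 < (w * (c y - c x)).re := by
      rw [← mv_sub (c := c) w (c t), sub_re]; linarith
    nlinarith
  have C2 : ∀ s, t < s → s < t + ρ' → Cone c s := by
    intro s e1 e2
    refine ⟨min (s - t) (t + ρ' - s), lt_min (by linarith) (by linarith), -w, fun x y hx hy hxy => ?_⟩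
    have hx' := abs_lt.1 (lt_min_iff.1 hx).1
    have hy' := abs_lt.1 (lt_min_iff.1 hy).2
    have g := h2 x y (by linarith) hxy (by linarith)
    have g2 := R.n2 x y (by linarith) hxy (by linarith)
    have g3 : 0 < (w * (c x - c y)).re := by
      rw [← mv_sub (c := c) w (c t), sub_re]; linarith
    rw [show -w * (c y - c x) = w * (c x - c y) by ring]
    nlinarith
  refine ⟨ρ', r0, r1, C1, C2, fun a b e1 e2 e3 e4 la lb hla hlb => ?_⟩
  rcases R.order with ho | ho
  · exact R.kl ho A' L' n' e1 e2 e3 e4 hla hlb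
  · have Ca := C1 a e1 e2
    have Cb := C2 b e3 e4
    obtain ⟨ra, hra⟩ := exKR L J A Ca
    obtain ⟨rb, hrb⟩ := exKR L J A Cb
    have q1 := R.kr ho A' L' n' e1 e2 e3 e4 hra hrb
    have q2 := parityX jP jT1 Pool.Agent.Y407.PEG.sgU jI L J nosq A (show a < b by linarith)
      (show b < a + 1 by linarith) Ca Cb hla hlb hra hrb
    linarith

theorem mon_open {s : ℝ} (h : Mon c s) : ∃ ρ > 0, ∀ s', |s' - s| < ρ → Mon c s' := by
  obtain ⟨ρ, hρ, w, hw⟩ := h
  refine ⟨ρ / 2, by positivity, fun s' hs' => ⟨ρ / 2, by positivity, w, fun x y hx hy hxy => ?_⟩⟩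
  refine hw x y ?_ ?_ hxy
  · have := abs_add_le (x - s') (s' - s)
    rw [sub_add_sub_cancel] at this
    linarith
  · have := abs_add_le (y - s') (s' - s)
    rw [sub_add_sub_cancel] at this
    linarith

theorem cone_mon {s : ℝ} (h : Cone c s) : Mon c s := by
  obtain ⟨ρ, hρ, w, hw⟩ := h
  exact ⟨ρ, hρ, w, fun x y hx hy hxy => lt_of_le_of_lt (abs_nonneg _) (hw x y hx hy hxy)⟩

/-- the combinatorial part -/
theorem comb (L : Loop c) {x : ℝ → ℤ}
    (hmon : ∀ s t, AR c s t → (∀ r ∈ Icc s t, Mon c r) → x t = x s)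
    (hM : ∀ t, Mon c t ∨ ∃ ρ > 0, (∀ s, t - ρ < s → s < t → Cone c s) ∧
      (∀ s, t < s → s < t + ρ → Cone c s) ∧
      ∀ a b, t - ρ < a → a < t → t < b → b < t + ρ → x a = x b)
    {s0 : ℝ} (C0 : Cone c s0) : x (s0 + 1) = x s0 := by
  classical
  have hcomp : ∀ t, ¬ Mon c t → ∃ ρ > 0, (∀ s, t - ρ < s → s < t → Cone c s) ∧
      (∀ s, t < s → s < t + ρ → Cone c s) ∧
      ∀ a b, t - ρ < a → a < t → t < b → b < t + ρ → x a = x b := fun t ht =>
    (hM t).resolve_left ht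
  -- a cone point right of `s0`
  obtain ⟨ρ0, hρ0, hC0⟩ : ∃ ρ > 0, ∀ s, |s - s0| < ρ → Cone c s := by
    obtain ⟨ρ, hρ, w, hw⟩ := C0
    refine ⟨ρ / 2, by positivity, fun s' hs' => ⟨ρ / 2, by positivity, w, fun x y hx hy hxy => ?_⟩⟩
    refine hw x y ?_ ?_ hxy
    · have := abs_add_le (x - s') (s' - s0)
      rw [sub_add_sub_cancel] at this
      linarith
    · have := abs_add_le (y - s') (s' - s0)
      rw [sub_add_sub_cancel] at this
      linarith
  set s1 : ℝ := s0 + min (ρ0 / 2) (1 / 2) with hs1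
  have m0 : 0 < min (ρ0 / 2) (1 / 2 : ℝ) := lt_min (by positivity) (by norm_num)
  have m1 : min (ρ0 / 2) (1 / 2 : ℝ) ≤ ρ0 / 2 := min_le_left _ _
  have m2 : min (ρ0 / 2) (1 / 2 : ℝ) ≤ 1 / 2 := min_le_right _ _
  have near : ∀ s ∈ Icc s0 s1, Cone c s := fun s hs => hC0 s (by
    rw [abs_lt]; constructor <;> linarith [hs.1, hs.2])
  have xnear : ∀ s ∈ Icc s0 s1, x s = x s0 := by
    intro s hs
    rcases lt_or_eq_of_le hs.1 with h | h
    · exact hmon s0 s ⟨h, by linarith [hs.2], C0, near s hs⟩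
        (fun r hr => cone_mon (near r ⟨hr.1, hr.2.trans hs.2⟩))
    · rw [h]
  set Bad : Set ℝ := {b | b ∈ Icc s1 (s0 + 1) ∧ Cone c b ∧ x b ≠ x s0} with hBad
  by_contra hcon
  have C1 : Cone c (s0 + 1) := C0.per L
  have hne : Bad.Nonempty := ⟨s0 + 1, ⟨by linarith, le_rfl⟩, C1, hcon⟩
  have hbd : BddBelow Bad := ⟨s1, fun b hb => hb.1.1⟩
  set β := sInf Bad with hβ
  have hβ1 : s1 ≤ β := le_csInf hne fun b hb => hb.1.1
  have hβ2 : β ≤ s0 + 1 := csInf_le hbd ⟨⟨by linarith, le_rfl⟩, C1, hcon⟩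
  have good : ∀ a, s0 ≤ a → a < β → Cone c a → x a = x s0 := by
    intro a h1 h2 h3
    by_contra h4
    rcases le_total a s1 with h5 | h5
    · exact h4 (xnear a ⟨h1, h5⟩)
    · exact absurd (csInf_le hbd ⟨⟨h5, by linarith⟩, h3, h4⟩) (not_le.2 h2)
  by_cases hQ : Mon c β
  · obtain ⟨ρ, hρ, hr⟩ := mon_open hQ
    -- a bad point close to `β`
    obtain ⟨b, hb, hbβ⟩ := exists_lt_of_csInf_lt hne (show sInf Bad < β + ρ by rw [← hβ]; linarith)
    have hβb : β ≤ b := csInf_le hbd hb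
    -- all points of `[β, b]` are monotone
    have hMb : ∀ r ∈ Icc β b, Mon c r := fun r hr' => hr r (by
      rw [abs_lt]; constructor <;> linarith [hr'.1, hr'.2])
    set Q : Set ℝ := {t | t ∈ Icc s1 β ∧ ¬ Mon c t} with hQd
    rcases Q.eq_empty_or_nonempty with hQe | hQn
    · -- no cusp between `s1` and `b`
      have hall : ∀ r ∈ Icc s1 b, Mon c r := by
        intro r hr'
        rcases le_total r β with h | h
        · by_contra hn
          have : r ∈ Q := ⟨⟨hr'.1, h⟩, hn⟩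
          rw [hQe] at this
          exact this
        · exact hMb r ⟨h, hr'.2⟩
      have e1 := xnear s1 ⟨by linarith, le_rfl⟩
      rcases lt_or_eq_of_le (hβ1.trans hβb) with h | h
      · have := hmon s1 b ⟨h, by linarith [hb.1.2], near s1 ⟨by linarith, le_rfl⟩, hb.2.1⟩ hall
        exact hb.2.2 (this.trans e1)
      · rw [← h] at hb
        exact hb.2.2 e1
    · have hbQ : BddAbove Q := ⟨β, fun t ht => ht.1.2⟩
      set τ := sSup Q with hτ
      have hτ1 : s1 ≤ τ := by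
        obtain ⟨q, hq⟩ := hQn
        exact hq.1.1.trans (le_csSup hbQ hq)
      have hτ2 : τ ≤ β := csSup_le hQn fun q hq => hq.1.2
      have hτM : ¬ Mon c τ := by
        intro h
        obtain ⟨ρ', hρ', hr'⟩ := mon_open h
        obtain ⟨q, hq, hqτ⟩ := exists_lt_of_lt_csSup hQn (show τ - ρ' < sSup Q by rw [← hτ]; linarith)
        have : q ≤ τ := le_csSup hbQ hq
        exact hq.2 (hr' q (by rw [abs_lt]; constructor <;> linarith))
      have hτβ : τ < β := lt_of_le_of_ne hτ2 fun h => hτM (by rw [h]; exact hQ)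
      have after : ∀ r, τ < r → r ≤ b → Mon c r := by
        intro r h1 h2
        rcases le_total r β with h | h
        · by_contra hn
          exact absurd (le_csSup hbQ (show r ∈ Q from ⟨⟨by linarith, h⟩, hn⟩)) (not_le.2 h1)
        · exact hMb r ⟨h, h2⟩
      obtain ⟨ρ', hρ', -, hc2, -⟩ := hcomp τ hτM
      set a := τ + min (ρ' / 2) ((β - τ) / 2) with ha
      have n0 : 0 < min (ρ' / 2) ((β - τ) / 2) := lt_min (by positivity) (by linarith)
      have n1 : min (ρ' / 2) ((β - τ) / 2) ≤ ρ' / 2 := min_le_left _ _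
      have n2 : min (ρ' / 2) ((β - τ) / 2) ≤ (β - τ) / 2 := min_le_right _ _
      have Ca : Cone c a := hc2 a (by linarith) (by linarith)
      have xa := good a (by linarith) (by linarith) Ca
      have := hmon a b ⟨by linarith, by linarith [hb.1.2], Ca, hb.2.1⟩
        (fun r hr' => after r (by linarith [hr'.1]) hr'.2)
      exact hb.2.2 (this.trans xa)
  · -- `β` is a cusp
    obtain ⟨ρ, hρ, hc1, hc2, hc3⟩ := hcomp β hQ
    obtain ⟨b, hb, hbβ⟩ := exists_lt_of_csInf_lt hne (show sInf Bad < β + ρ by rw [← hβ]; linarith)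
    have hβb : β ≤ b := csInf_le hbd hb
    have hβb' : β < b := lt_of_le_of_ne hβb fun h => hQ (by rw [h]; exact cone_mon hb.2.1)
    set a := β - min (ρ / 2) ((β - s0) / 2) with ha
    have n0 : 0 < min (ρ / 2) ((β - s0) / 2) := lt_min (by positivity) (by linarith)
    have n1 : min (ρ / 2) ((β - s0) / 2) ≤ ρ / 2 := min_le_left _ _
    have n2 : min (ρ / 2) ((β - s0) / 2) ≤ (β - s0) / 2 := min_le_right _ _
    have Ca : Cone c a := hc1 a (by linarith) (by linarith)
    have xa := good a (by linarith) (by linarith) Ca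
    have := hc3 a b (by linarith) (by linarith) hβb' hbβ
    exact hb.2.2 (this.symm.trans xa)

/-- **Main theorem.** -/
theorem square_of_csp (L : Loop c) (J : Inj c) (H : ∀ t, Mon c t ∨ Csp c t)
    (hst : (∀ t, Mon c t) → ¬ NoSq (range c)) : ¬ NoSq (range c) := by
  intro nosq
  obtain ⟨θ, g, A, ho⟩ := exists_odd L J nosq
  obtain ⟨z0, h0⟩ := exists_pos L J nosq
  by_cases hall : ∀ t, Mon c t
  · exact hst hall nosq
  push Not at hall
  obtain ⟨t0, ht0⟩ := hall
  obtain ⟨ρ0, hρ0, -, hC, -⟩ := csp_zero L J nosq A ((H t0).resolve_left ht0)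
  have hex : ∃ s0, Cone c s0 := ⟨t0 - ρ0 / 2, hC _ (by linarith) (by linarith)⟩
  obtain ⟨s0, C0⟩ := hex
  obtain ⟨l0, hl0⟩ := exKL L J A C0
  have ex1 : ∀ s, ∃ k : ℤ, Cone c s → KL θ s (l0 + 2 * k) := fun s => by
    by_cases hs : Cone c s
    · obtain ⟨k, hk⟩ := exKL L J A hs
      obtain ⟨m, hm⟩ := KL.parity L J h0 A C0 hs hl0 hk
      exact ⟨m, fun _ => by rwa [show l0 + 2 * m = k by linarith]⟩
    · exact ⟨0, fun h => absurd h hs⟩
  choose x hx using ex1
  have hper : x (s0 + 1) = x s0 + g := by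
    have hs1 := C0.per L
    have e1 := (hx (s0 + 1) hs1).uniq ((hx s0 C0).per A)
    linarith
  have hmon : ∀ s t, AR c s t → (∀ r ∈ Icc s t, Mon c r) → x t = x s := by
    intro s t h hM
    have := monoX jP jT2 Pool.Agent.Y407.PEG.sgU jI L J nosq A h.ab h.ba h.ha h.hb hM (hx s h.ha)
      (hx t h.hb)
    linarith
  have hM : ∀ t, Mon c t ∨ ∃ ρ > 0, (∀ s, t - ρ < s → s < t → Cone c s) ∧
      (∀ s, t < s → s < t + ρ → Cone c s) ∧
      ∀ a b, t - ρ < a → a < t → t < b → b < t + ρ → x a = x b := by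
    intro t
    rcases H t with h | h
    · exact Or.inl h
    · obtain ⟨ρ, hρ, -, h1, h2, h3⟩ := csp_zero L J nosq A h
      refine Or.inr ⟨ρ, hρ, h1, h2, fun a b e1 e2 e3 e4 => ?_⟩
      have := h3 a b e1 e2 e3 e4 _ _ (hx a (h1 a e1 e2)) (hx b (h2 b e3 e4))
      linarith
  have := comb L hmon hM C0
  have hg : g = 0 := by linarith
  rw [hg] at ho
  exact absurd ho (by decide)

end Pool.Agent.J4H80.CU
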