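import Pool.Agent.Y450.Lens.Path

/-! The last vertex of the squares near a cusp is below the lower branch. -/

set_option autoImplicit false
open Set

namespace Pool.Agent.J4H80.CU

open Pool.Agent.Y450.Stab Pool.Agent.Y450.Lens

variable {T B : ℝ → ℝ} {κ : ℝ}

theorem ESq.uniq (hT : Lip κ T) (hB : Lip κ B) (k0 : 0 ≤ κ) (k1 : κ < 1) {x d l d' l' : ℝ}
    (S : ESq T B x d l) (S' : ESq T B x d' l') : d = d' ∧ l = l' := by
  have S'' : ESq T B (x + 0) d' l' := by rwa [add_zero]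
  have h := S.steps hT hB k0 k1 S'' le_rfl
  have h1 := abs_nonneg (d' - d)
  have h2 := abs_nonneg (l' - l)
  have h3 : |d' - d| + |l' - l| ≤ 0 := by
    by_contra hc
    push Not at hc
    have := mul_pos (show 0 < 1 - κ by linarith) hc
    linarith
  have e1 : d' - d = 0 := abs_eq_zero.1 (by linarith)
  have e2 : l' - l = 0 := abs_eq_zero.1 (by linarith)
  constructor <;> linarith

/-- the side of a square whose corner is at `x < 0` is smaller than `|x|` -/
theorem side_lt (hT : Lip κ T) (hB : Lip κ B) (k0 : 0 ≤ κ) (k1 : κ ^ 2 + 2 * κ < 1)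
    (T0 : T 0 = 0) (B0 : B 0 = 0) {x d l : ℝ} (hx : x < 0) (S : ESq T B x d l) :
    |d| ≤ κ * l ∧ l < -x := by
  have hd := S.d_le hT
  refine ⟨hd, ?_⟩
  have h1 := hT x 0
  have h2 := hB (x + d) 0
  rw [T0, sub_zero, sub_zero, abs_of_neg hx] at h1
  rw [B0, sub_zero, sub_zero, S.h2] at h2
  have h3 : |x + d| ≤ -x + κ * l := by
    have := abs_add_le x d
    rw [abs_of_neg hx] at this
    linarith
  have h4 := mul_le_mul_of_nonneg_left h3 k0
  have h5 := abs_le.1 h1
  have h6 := abs_le.1 (h2.trans h4)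
  have l0 := S.l0
  nlinarith [h5.1, h5.2, h6.1, h6.2, mul_nonneg k0 l0]

/-- the last vertex of an inscribed square is not on the right of the cusp -/
theorem last_le (hT : Lip κ T) (hB : Lip κ B) (k0 : 0 ≤ κ) (k1 : κ ^ 2 + 2 * κ < 1)
    (T0 : T 0 = 0) (B0 : B 0 = 0) {x d l : ℝ} (hx : x < 0) (S : ESq T B x d l) (l0 : 0 < l)
    (h : T x + d - l = B (x + d + l)) : x + d + l ≤ 0 := by
  obtain ⟨hd, hl⟩ := side_lt hT hB k0 k1 T0 B0 hx S
  by_contra hc
  push Not at hc
  have h1 := hT (x + l) 0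
  have h2 := hB (x + d + l) 0
  rw [T0, sub_zero, sub_zero, S.h3, abs_of_neg (show x + l < 0 by linarith)] at h1
  rw [B0, sub_zero, sub_zero, ← h, abs_of_pos hc] at h2
  have h1 := abs_le.1 h1
  have h2 := abs_le.1 h2
  have hd' := abs_le.1 hd
  have h3 : l ≤ κ * d := by nlinarith [h1.1, h1.2, h2.1, h2.2]
  nlinarith [mul_le_mul_of_nonneg_left hd'.2 k0]

/-- **The sign of the last vertex.** -/
theorem last_below (hT : Lip κ T) (hB : Lip κ B) (k0 : 0 ≤ κ) (k1 : κ ^ 2 + 2 * κ < 1)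
    (T0 : T 0 = 0) (B0 : B 0 = 0) {δ : ℝ} (hBT : ∀ x, -δ ≤ x → x < 0 → B x < T x)
    (hno : ∀ x d l, -δ ≤ x → x < 0 → 0 < l → ESq T B x d l → x + d + l ≤ 0 →
      T x + d - l ≠ B (x + d + l))
    {x d l : ℝ} (hx1 : -δ ≤ x) (hx2 : x < 0) (S : ESq T B x d l) :
    T x + d - l < B (x + d + l) := by
  have κ1 : κ < 1 := by nlinarith
  have pos : ∀ x d l, -δ ≤ x → x < 0 → ESq T B x d l → 0 < l := by
    intro x d l h1 h2 S
    refine lt_of_le_of_ne S.l0 fun h => ?_
    have hd := S.d_le hT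
    rw [← h, mul_zero] at hd
    have hd0 : d = 0 := abs_eq_zero.1 (le_antisymm hd (abs_nonneg d))
    have e := S.h2
    rw [hd0, ← h, add_zero, sub_zero] at e
    exact absurd e (hBT x h1 h2).ne
  have nz : ∀ x d l, -δ ≤ x → x < 0 → ESq T B x d l → T x + d - l ≠ B (x + d + l) := by
    intro x d l h1 h2 S h
    have l0 := pos x d l h1 h2 S
    exact hno x d l h1 h2 l0 S (last_le hT hB k0 k1 T0 B0 h2 S l0 h) h
  by_contra hcon
  push Not at hcon
  have hH : 0 < T x + d - l - B (x + d + l) := by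
    have := nz x d l hx1 hx2 S
    exact sub_pos.2 (lt_of_le_of_ne hcon this.symm)
  -- the family
  have hex : ∀ y, ∃ p : ℝ × ℝ, y ∈ Icc x 0 → ESq T B y p.1 p.2 := by
    intro y
    by_cases hy : y ∈ Icc x 0
    · have : B y ≤ T y := by
        rcases lt_or_eq_of_le hy.2 with h | h
        · exact (hBT y (hx1.trans hy.1) h).le
        · rw [h, T0, B0]
      obtain ⟨d, l, h⟩ := ESq.ex hT hB k0 κ1 this
      exact ⟨(d, l), fun _ => h⟩
    · exact ⟨(0, 0), fun h => absurd h hy⟩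
  choose P hP using hex
  set dd : ℝ → ℝ := fun y => (P y).1 with hdd
  set ll : ℝ → ℝ := fun y => (P y).2 with hll
  have hS : ∀ y ∈ Icc x 0, ESq T B y (dd y) (ll y) := hP
  have hst : ∀ y ∈ Icc x 0, ∀ z ∈ Icc x 0, |dd z - dd y| + |ll z - ll y| ≤ 4 / (1 - κ) * |z - y| := by
    have key : ∀ y ∈ Icc x 0, ∀ z ∈ Icc x 0, y ≤ z →
        |dd z - dd y| + |ll z - ll y| ≤ 4 / (1 - κ) * |z - y| := by
      intro y hy z hz hyz
      have S1 := hS y hy
      have S2 := hS z hz
      have e : z = y + (z - y) := by ring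
      rw [e] at S2
      have := S1.steps hT hB k0 κ1 S2 (sub_nonneg.2 hyz)
      rw [← e] at this
      rw [abs_of_nonneg (sub_nonneg.2 hyz), div_mul_eq_mul_div, le_div_iff₀ (by linarith)]
      linarith
    intro y hy z hz
    rcases le_total y z with h | h
    · exact key y hy z hz h
    · have := key z hz y hy h
      rwa [abs_sub_comm (dd y), abs_sub_comm (ll y), abs_sub_comm y z] at this
  have k4 : 0 ≤ 4 / (1 - κ) := div_nonneg (by norm_num) (by linarith)
  have cdd : ContinuousOn dd (Icc x 0) := by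
    have : LipschitzOnWith (Real.toNNReal (4 / (1 - κ))) dd (Icc x 0) := by
      refine LipschitzOnWith.of_dist_le_mul fun y hy z hz => ?_
      rw [Real.dist_eq, Real.dist_eq, Real.coe_toNNReal _ k4]
      have := hst z hz y hy
      linarith [abs_nonneg (ll y - ll z)]
    exact this.continuousOn
  have cll : ContinuousOn ll (Icc x 0) := by
    have : LipschitzOnWith (Real.toNNReal (4 / (1 - κ))) ll (Icc x 0) := by
      refine LipschitzOnWith.of_dist_le_mul fun y hy z hz => ?_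
      rw [Real.dist_eq, Real.dist_eq, Real.coe_toNNReal _ k4]
      have := hst z hz y hy
      linarith [abs_nonneg (dd y - dd z)]
    exact this.continuousOn
  have cH : ContinuousOn (fun y => YY T dd ll y - B (XX dd ll y)) (Icc x 0) := by
    unfold YY XX
    have hTc := hT.cont
    have hBc := hB.cont
    refine ContinuousOn.sub (ContinuousOn.sub (ContinuousOn.add hTc.continuousOn cdd) cll) ?_
    exact hBc.comp_continuousOn ((continuousOn_id.add cdd).add cll)
  have hxm : x ∈ Icc x 0 := ⟨le_rfl, hx2.le⟩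
  obtain ⟨ed, el⟩ := ESq.uniq hT hB k0 κ1 S (hS x hxm)
  have Hx : 0 < YY T dd ll x - B (XX dd ll x) := by
    unfold YY XX
    rw [← ed, ← el]
    exact hH
  have H0 : ∀ y ∈ Icc x 0, 0 ≤ YY T dd ll y - B (XX dd ll y) := by
    intro y hy
    by_contra hneg
    push Not at hneg
    have hsub : Icc x y ⊆ Icc x 0 := Icc_subset_Icc_right hy.2
    obtain ⟨z, hz, hz0⟩ := intermediate_value_Icc' hy.1 (cH.mono hsub)
      (show (0:ℝ) ∈ Icc _ _ from ⟨hneg.le, Hx.le⟩)
    have hzx := hsub hz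
    rcases lt_or_eq_of_le hzx.2 with h | h
    · refine nz z (dd z) (ll z) (hx1.trans hzx.1) h (hS z hzx) ?_
      simp only [YY, XX] at hz0
      linarith
    · have hy0 : y = z := le_antisymm (by rw [h]; exact hy.2) hz.2
      rw [hy0] at hneg
      have hz0' : YY T dd ll z - B (XX dd ll z) = 0 := hz0
      linarith
  have hz0 : (0:ℝ) ∈ Icc x 0 := ⟨hx2.le, le_rfl⟩
  have S0 := hS 0 hz0
  have Z0 : ESq T B 0 0 0 := ⟨le_rfl, by rw [add_zero, add_zero], by rw [add_zero, sub_zero, T0, B0]⟩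
  obtain ⟨e1, e2⟩ := ESq.uniq hT hB k0 κ1 S0 Z0
  have hA := path_area hT hB k0 κ1 hB k0 κ1 (σ := 1) (Or.inl rfl) hx2.le hS
    (fun y hy => by rw [one_mul]; exact H0 y hy)
  have hY0 : YY T dd ll 0 - B (XX dd ll 0) = 0 := by
    simp only [YY, XX, e1, e2, T0, B0, add_zero, sub_zero]
  have hP0 : Pot T B 0 (dd 0) (ll 0) = 0 := by
    rw [e1, e2]; simp [Pot, Prim]
  rw [hY0, hP0, ← ed, ← el, sub_self, one_mul, one_mul] at hA
  have hYX : YY T dd ll x - B (XX dd ll x) = T x + d - l - B (x + d + l) := by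
    unfold YY XX; rw [← ed, ← el]
  rw [hYX] at hA
  have hlow := S.pot_lower hT hB
  have hup := (abs_le.1 (S.h_le hT hB)).2
  have l0 := pos x d l hx1 hx2 S
  set H := T x + d - l - B (x + d + l) with hHd
  have q : 0 < 1 - κ := by linarith
  have hA' : Pot T B x d l ≤ H ^ 2 / (2 * (1 - κ)) := by
    have e : (H ^ 2 + 0 ^ 2) / (2 * (1 - κ)) = H ^ 2 / (2 * (1 - κ)) := by ring
    linarith
  have h1 : ((1 - κ) * l ^ 2 / 2 + l * H / 2) * (2 * (1 - κ)) ≤ H ^ 2 := by
    have := hlow.trans hA'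
    rwa [le_div_iff₀ (by linarith)] at this
  have h2 : (1 - κ) ^ 2 * l ^ 2 + (1 - κ) * (l * H) ≤ H ^ 2 := by linarith
  -- contradiction
  have h3 : H * (2 * κ * l) ≥ H ^ 2 := by nlinarith
  have h4 : (1 - κ) ^ 2 * l ≤ (3 * κ - 1) * H := by
    have : (1 - κ) ^ 2 * l * l ≤ (3 * κ - 1) * H * l := by nlinarith
    exact le_of_mul_le_mul_right this l0
  have h5 : κ ^ 2 < 1 / 5 := by
    by_contra hc
    push Not at hc
    have : κ < 2 / 5 := by linarith
    nlinarith
  rcases le_total (3 * κ) 1 with h | h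
  · have : (3 * κ - 1) * H ≤ 0 := mul_nonpos_of_nonpos_of_nonneg (by linarith) hH.le
    have := mul_pos (pow_pos q 2) l0
    linarith
  · have h6 : (3 * κ - 1) * H ≤ (3 * κ - 1) * (2 * κ * l) :=
      mul_le_mul_of_nonneg_left hup (by linarith)
    have h7 : ((1 - κ) ^ 2 - (3 * κ - 1) * (2 * κ)) * l ≤ 0 := by nlinarith
    have h8 : 0 < (1 - κ) ^ 2 - (3 * κ - 1) * (2 * κ) := by nlinarith
    have := mul_pos h8 l0
    linarith

end Pool.Agent.J4H80.CU
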