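import Pool.Agent.Y535.PEG.ExD
import Pool.Agent.J4H80.CU.W

/-! The charge of a cusp, in normal position. -/

set_option autoImplicit false
open Complex Set Topology Metric

namespace Pool.Agent.J4H80.CU

open Pool.Agent.H763R2 Pool.Agent.H763R2.An Pool.Agent.Y535.PEG
open Pool.Agent.H763R2.Dm (NoSq)
open Pool.Agent.H763R2.Sq (Dv Cv)
open Pool.Agent.Y450.Stab (Lip ESq)

/-- `f / π` in the first quadrant -/
theorem floor_first {f : ℝ} {j : ℤ} (h1 : 2 * Real.pi * j - Real.pi / 2 ≤ f)
    (h2 : f < 2 * Real.pi * j + 3 * Real.pi / 2) (hc : 0 < Real.cos f) (hs : 0 < Real.sin f) :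
    ⌊f / Real.pi⌋ = 2 * j := by
  have hπ := Real.pi_pos
  have hc' : Real.cos (f - j * (2 * Real.pi)) = Real.cos f := Real.cos_sub_int_mul_two_pi f j
  have hs' : Real.sin (f - j * (2 * Real.pi)) = Real.sin f := Real.sin_sub_int_mul_two_pi f j
  set ψ := f - j * (2 * Real.pi) with hψ
  have a1 : -(Real.pi / 2) ≤ ψ := by rw [hψ]; linarith
  have a2 : ψ < 3 * Real.pi / 2 := by rw [hψ]; linarith
  have b1 : 0 < ψ := by
    by_contra hcon
    push Not at hcon
    have := Real.sin_nonpos_of_nonpos_of_neg_pi_le hcon (by linarith)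
    linarith
  have b2 : ψ < Real.pi / 2 := by
    by_contra hcon
    push Not at hcon
    have := Real.cos_nonpos_of_pi_div_two_le_of_le hcon (by linarith)
    linarith
  rw [Int.floor_eq_iff]
  push_cast
  constructor
  · rw [le_div_iff₀ hπ]; linarith
  · rw [div_lt_iff₀ hπ]; linarith

theorem quad {X : Type*} [TopologicalSpace X] {V : Set X} (hV : IsPreconnected V) {f : X → ℝ}
    (hf : ContinuousOn f V) {σ : ℝ} (hσ : σ = 1 ∨ σ = -1)
    (h : ∀ z ∈ V, ¬ (Real.cos (f z) = 0 ∧ σ * Real.sin (f z) < 0)) {z w : X} (hz : z ∈ V)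
    (hw : w ∈ V) (cz : 0 < σ * Real.cos (f z)) (sz : 0 < σ * Real.sin (f z))
    (cw : 0 < σ * Real.cos (f w)) (sw : 0 < σ * Real.sin (f w)) :
    ⌊f z / Real.pi⌋ = ⌊f w / Real.pi⌋ := by
  have hπ := Real.pi_pos
  rcases hσ with rfl | rfl
  · simp only [one_mul] at *
    have key : ∀ z ∈ V, Real.sin ((f z + Real.pi / 2) / 2) ≠ 0 := by
      intro z hz h0
      obtain ⟨n, hn⟩ := Real.sin_eq_zero_iff.1 h0
      have e : f z = n * (2 * Real.pi) - Real.pi / 2 := by linarith
      refine h z hz ⟨?_, ?_⟩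
      · rw [e, sub_eq_neg_add, Real.cos_add_int_mul_two_pi, Real.cos_neg, Real.cos_pi_div_two]
      · rw [e, sub_eq_neg_add, Real.sin_add_int_mul_two_pi, Real.sin_neg, Real.sin_pi_div_two]
        norm_num
    have e := floor_pre hV (f := fun z => (f z + Real.pi / 2) / 2) (by fun_prop) key hz hw
    have fl : ∀ z, 0 < Real.cos (f z) → 0 < Real.sin (f z) →
        ⌊f z / Real.pi⌋ = 2 * ⌊((f z + Real.pi / 2) / 2) / Real.pi⌋ := by
      intro z h1 h2
      have a1 := Int.floor_le (((f z + Real.pi / 2) / 2) / Real.pi)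
      have a2 := Int.lt_floor_add_one (((f z + Real.pi / 2) / 2) / Real.pi)
      rw [le_div_iff₀ hπ] at a1
      rw [div_lt_iff₀ hπ] at a2
      exact floor_first (by linarith) (by linarith) h1 h2
    rw [fl z cz sz, fl w cw sw]
    have e' : ⌊((f z + Real.pi / 2) / 2) / Real.pi⌋ = ⌊((f w + Real.pi / 2) / 2) / Real.pi⌋ := e
    rw [e']
  · have key : ∀ z ∈ V, Real.sin ((f z - Real.pi / 2) / 2) ≠ 0 := by
      intro z hz h0
      obtain ⟨n, hn⟩ := Real.sin_eq_zero_iff.1 h0
      have e : f z = Real.pi / 2 + n * (2 * Real.pi) := by linarith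
      refine h z hz ⟨?_, ?_⟩
      · rw [e, Real.cos_add_int_mul_two_pi, Real.cos_pi_div_two]
      · rw [e, Real.sin_add_int_mul_two_pi, Real.sin_pi_div_two]
        norm_num
    have e := floor_pre hV (f := fun z => (f z - Real.pi / 2) / 2) (by fun_prop) key hz hw
    have fl : ∀ z, 0 < -1 * Real.cos (f z) → 0 < -1 * Real.sin (f z) →
        ⌊f z / Real.pi⌋ = 2 * ⌊((f z - Real.pi / 2) / 2) / Real.pi⌋ + 1 := by
      intro z h1 h2
      have a1 := Int.floor_le (((f z - Real.pi / 2) / 2) / Real.pi)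
      have a2 := Int.lt_floor_add_one (((f z - Real.pi / 2) / 2) / Real.pi)
      rw [le_div_iff₀ hπ] at a1
      rw [div_lt_iff₀ hπ] at a2
      have := floor_first (f := f z - Real.pi) (j := ⌊((f z - Real.pi / 2) / 2) / Real.pi⌋)
        (by linarith) (by linarith) (by rw [Real.cos_sub_pi]; linarith)
        (by rw [Real.sin_sub_pi]; linarith)
      rw [sub_div, div_self hπ.ne', Int.floor_sub_one] at this
      linarith
    rw [fl z cz sz, fl w cw sw]
    have e' : ⌊((f z - Real.pi / 2) / 2) / Real.pi⌋ = ⌊((f w - Real.pi / 2) / 2) / Real.pi⌋ := e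
    rw [e']

variable {c : ℝ → ℂ} {T B : ℝ → ℝ} {κ δ : ℝ}

/-- a curve near a cusp at `0` that opens to the left -/
structure Pos (c : ℝ → ℂ) (T B : ℝ → ℝ) (κ δ : ℝ) : Prop where
  lT : Lip κ T
  lB : Lip κ B
  k0 : 0 ≤ κ
  k1 : κ ^ 2 + 2 * κ < 1
  T0 : T 0 = 0
  B0 : B 0 = 0
  δ0 : 0 < δ
  BT : ∀ x, -(2 * δ) ≤ x → x < 0 → B x < T x
  mT : ∀ x, -(2 * δ) ≤ x → x ≤ 0 → (⟨x, T x⟩ : ℂ) ∈ range c
  mB : ∀ x, -(2 * δ) ≤ x → x ≤ 0 → (⟨x, B x⟩ : ℂ) ∈ range c
  mC : ∀ z ∈ range c, |z.re| ≤ 4 * δ → |z.im| ≤ 4 * δ → z.re ≤ 0 ∧ (z.im = T z.re ∨ z.im = B z.re)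

namespace Pos

theorem κ1 (P : Pos c T B κ δ) : κ < 1 := by
  have := P.k0; have := P.k1; nlinarith

theorem κh (P : Pos c T B κ δ) : 2 * κ < 1 := by
  have := P.k1; nlinarith [sq_nonneg κ]

theorem absT (P : Pos c T B κ δ) (x : ℝ) : |T x| ≤ κ * |x| := by
  have := P.lT x 0
  rwa [P.T0, sub_zero, sub_zero] at this

theorem absB (P : Pos c T B κ δ) (x : ℝ) : |B x| ≤ κ * |x| := by
  have := P.lB x 0
  rwa [P.B0, sub_zero, sub_zero] at this

theorem absT' (P : Pos c T B κ δ) {x r : ℝ} (h : |x| ≤ r) : |T x| ≤ κ * r :=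
  (P.absT x).trans (mul_le_mul_of_nonneg_left h P.k0)

theorem absB' (P : Pos c T B κ δ) {x r : ℝ} (h : |x| ≤ r) : |B x| ≤ κ * r :=
  (P.absB x).trans (mul_le_mul_of_nonneg_left h P.k0)

end Pos

theorem seg_sign (L : Loop c) {z w : ℂ} (h : ∀ s ∈ Icc (0:ℝ) 1, z + s * (w - z) ∉ range c) :
    0 < mgc c z * mgc c w := by
  have hc : ContinuousOn (fun s : ℝ => mgc c (z + s * (w - z))) (Icc 0 1) := by
    have := (mgc_sg L).cont
    fun_prop
  have := sign_pre (isPreconnected_Icc (a := (0:ℝ)) (b := 1)) hc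
    (fun s hs h0 => h s hs (((mgc_sg L).zero L).1 h0)) (z := 0) (w := 1) (by simp) (by simp)
  simpa using this

theorem sign_trans {x y z : ℝ} (h1 : 0 < x * y) (h2 : 0 < y * z) : 0 < x * z := by
  have h : 0 < (x * z) * (y * y) := by
    have := mul_pos h1 h2
    nlinarith
  have hy : 0 < y * y := by
    rcases lt_trichotomy y 0 with h | h | h
    · exact mul_pos_of_neg_of_neg h h
    · rw [h] at h1; simp at h1
    · exact mul_pos h h
  exact pos_of_mul_pos_of_pos_right h hy.le
where
  pos_of_mul_pos_of_pos_right {a b : ℝ} (h : 0 < a * b) (hb : 0 ≤ b) : 0 < a := by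
    by_contra hc
    push Not at hc
    have := mul_nonpos_of_nonpos_of_nonneg hc hb
    linarith

theorem vert (L : Loop c) {x y y' : ℝ} (h : ∀ s, s ∈ uIcc y y' → (⟨x, s⟩ : ℂ) ∉ range c) :
    0 < mgc c ⟨x, y⟩ * mgc c ⟨x, y'⟩ := by
  refine seg_sign L fun s hs => ?_
  have e : (⟨x, y⟩ : ℂ) + s * (⟨x, y'⟩ - ⟨x, y⟩) = ⟨x, y + s * (y' - y)⟩ := by
    apply Complex.ext <;> simp
  rw [e]
  refine h _ ?_
  rcases le_total y y' with g | g
  · rw [uIcc_of_le g]
    constructor <;> nlinarith [hs.1, hs.2]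
  · rw [uIcc_of_ge g]
    constructor <;> nlinarith [hs.1, hs.2]

theorem horiz (L : Loop c) {x x' y : ℝ} (h : ∀ s, s ∈ uIcc x x' → (⟨s, y⟩ : ℂ) ∉ range c) :
    0 < mgc c ⟨x, y⟩ * mgc c ⟨x', y⟩ := by
  refine seg_sign L fun s hs => ?_
  have e : (⟨x, y⟩ : ℂ) + s * (⟨x', y⟩ - ⟨x, y⟩) = ⟨x + s * (x' - x), y⟩ := by
    apply Complex.ext <;> simp
  rw [e]
  refine h _ ?_
  rcases le_total x x' with g | g
  · rw [uIcc_of_le g]
    constructor <;> nlinarith [hs.1, hs.2]
  · rw [uIcc_of_ge g]
    constructor <;> nlinarith [hs.1, hs.2]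

namespace Pos

/-- above the upper branch -/
theorem above_ne (P : Pos c T B κ δ) {z : ℂ} (h1 : |z.re| ≤ 2 * δ) (h2 : |z.im| ≤ 4 * δ)
    (h : T z.re < z.im) : z ∉ range c := by
  intro hz
  have d0 := P.δ0
  obtain ⟨a1, a2⟩ := P.mC z hz (by linarith) h2
  rcases a2 with e | e
  · exact absurd e h.ne'
  · rcases lt_or_eq_of_le a1 with g | g
    · have := P.BT z.re (by linarith [(abs_le.1 h1).1]) g
      linarith
    · rw [g, P.B0] at e
      rw [g, P.T0, e] at h
      exact lt_irrefl _ h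

theorem below_ne (P : Pos c T B κ δ) {z : ℂ} (h1 : |z.re| ≤ 2 * δ) (h2 : |z.im| ≤ 4 * δ)
    (h : z.im < B z.re) : z ∉ range c := by
  intro hz
  have d0 := P.δ0
  obtain ⟨a1, a2⟩ := P.mC z hz (by linarith) h2
  rcases a2 with e | e
  · rcases lt_or_eq_of_le a1 with g | g
    · have := P.BT z.re (by linarith [(abs_le.1 h1).1]) g
      linarith
    · rw [g, P.T0] at e
      rw [g, P.B0, e] at h
      exact lt_irrefl _ h
  · exact absurd e h.ne

theorem above (P : Pos c T B κ δ) (L : Loop c) {z : ℂ} (h1 : |z.re| ≤ 2 * δ) (h2 : |z.im| ≤ 2 * δ)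
    (h : T z.re < z.im) : 0 < mgc c z * mgc c ⟨δ, 0⟩ := by
  have d0 := P.δ0
  have kh := P.κh
  have k0 := P.k0
  have h1' := abs_le.1 h1
  have h2' := abs_le.1 h2
  have s1 : 0 < mgc c ⟨z.re, z.im⟩ * mgc c ⟨z.re, 3 * δ⟩ := by
    refine vert L fun s hs => ?_
    rw [uIcc_of_le (by linarith)] at hs
    refine P.above_ne (by simpa using h1) ?_ ?_
    · rw [abs_le]; constructor <;> simp only <;> linarith [hs.1, hs.2]
    · simp only; linarith [hs.1]
  have s2 : 0 < mgc c ⟨z.re, 3 * δ⟩ * mgc c ⟨δ, 3 * δ⟩ := by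
    refine horiz L fun s hs => ?_
    have hs' : |s| ≤ 2 * δ := by
      rcases le_total z.re δ with g | g
      · rw [uIcc_of_le g] at hs
        rw [abs_le]; constructor <;> linarith [hs.1, hs.2]
      · rw [uIcc_of_ge g] at hs
        rw [abs_le]; constructor <;> linarith [hs.1, hs.2]
    refine P.above_ne (by simpa using hs') ?_ ?_
    · simp only; rw [abs_of_pos (by linarith)]; linarith
    · simp only
      have := (abs_le.1 (P.absT' hs')).2
      nlinarith
  have s3 : 0 < mgc c ⟨δ, 3 * δ⟩ * mgc c ⟨δ, 0⟩ := by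
    refine vert L fun s hs => ?_
    rw [uIcc_of_ge (by linarith)] at hs
    intro hm
    have := (P.mC _ hm (by simp only; rw [abs_of_pos d0]; linarith)
      (by simp only; rw [abs_of_nonneg hs.1]; linarith [hs.2])).1
    simp only at this
    linarith
  have := sign_trans (sign_trans s1 s2) s3
  exact this

theorem below (P : Pos c T B κ δ) (L : Loop c) {z : ℂ} (h1 : |z.re| ≤ 2 * δ) (h2 : |z.im| ≤ 2 * δ)
    (h : z.im < B z.re) : 0 < mgc c z * mgc c ⟨δ, 0⟩ := by
  have d0 := P.δ0
  have kh := P.κh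
  have k0 := P.k0
  have h1' := abs_le.1 h1
  have h2' := abs_le.1 h2
  have s1 : 0 < mgc c ⟨z.re, z.im⟩ * mgc c ⟨z.re, -(3 * δ)⟩ := by
    refine vert L fun s hs => ?_
    rw [uIcc_of_ge (by linarith)] at hs
    refine P.below_ne (by simpa using h1) ?_ ?_
    · rw [abs_le]; constructor <;> simp only <;> linarith [hs.1, hs.2]
    · simp only; linarith [hs.2]
  have s2 : 0 < mgc c ⟨z.re, -(3 * δ)⟩ * mgc c ⟨δ, -(3 * δ)⟩ := by
    refine horiz L fun s hs => ?_
    have hs' : |s| ≤ 2 * δ := by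
      rcases le_total z.re δ with g | g
      · rw [uIcc_of_le g] at hs
        rw [abs_le]; constructor <;> linarith [hs.1, hs.2]
      · rw [uIcc_of_ge g] at hs
        rw [abs_le]; constructor <;> linarith [hs.1, hs.2]
    refine P.below_ne (by simpa using hs') ?_ ?_
    · simp only; rw [abs_neg, abs_of_pos (by linarith)]; linarith
    · simp only
      have := (abs_le.1 (P.absB' hs')).1
      nlinarith
  have s3 : 0 < mgc c ⟨δ, -(3 * δ)⟩ * mgc c ⟨δ, 0⟩ := by
    refine vert L fun s hs => ?_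
    rw [uIcc_of_le (by linarith)] at hs
    intro hm
    have := (P.mC _ hm (by simp only; rw [abs_of_pos d0]; linarith)
      (by simp only; rw [abs_of_nonpos hs.2]; linarith [hs.1])).1
    simp only at this
    linarith
  have := sign_trans (sign_trans s1 s2) s3
  exact this

/-- if the vertex next to the upper end of a transversal chord is on the curve, then the other one
is below the lower branch -/
theorem forb (P : Pos c T B κ δ) (nosq : NoSq (range c)) {u v : ℝ} (hu : -δ ≤ u) (hu0 : u ≤ 0)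
    (hv : -δ ≤ v) (hv0 : v ≤ 0) (hne : ¬ (u = 0 ∧ v = 0))
    (hD : (⟨u + (T u - B v), T u + (v - u)⟩ : ℂ) ∈ range c) :
    B v + (v - u) < B (v + (T u - B v)) := by
  have d0 := P.δ0
  have k0 := P.k0
  have k1 := P.k1
  have κh := P.κh
  have κ1 := P.κ1
  set p := v - u with hp
  set q := T u - B v with hq
  have hBuv := abs_le.1 (P.lB u v)
  have hTu := abs_le.1 (P.absT' (x := u) (r := δ) (abs_le.2 ⟨hu, by linarith⟩))
  have hBv := abs_le.1 (P.absB' (x := v) (r := δ) (abs_le.2 ⟨hv, by linarith⟩))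
  have huv : |u - v| = |p| := by rw [hp, abs_sub_comm]
  rw [huv] at hBuv
  have hBTu : B u ≤ T u := by
    rcases lt_or_eq_of_le hu0 with h | h
    · exact (P.BT u (by linarith) h).le
    · rw [h, P.T0, P.B0]
  have hql : -(κ * |p|) ≤ q := by rw [hq]; linarith [hBuv.1]
  have hp0 : ¬ (p = 0 ∧ q = 0) := by
    rintro ⟨e1, e2⟩
    have e : u = v := by linarith
    rw [e] at hu0
    rcases lt_or_eq_of_le hu0 with h | h
    · have := P.BT v (by linarith) h
      rw [e] at hq
      linarith
    · exact hne ⟨by linarith, h⟩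
  have hre : |u + q| ≤ 4 * δ := by
    have hkd : κ * δ ≤ δ / 2 := by nlinarith
    rw [abs_le]; constructor <;> linarith [hTu.1, hTu.2, hBv.1, hBv.2]
  have him : |T u + p| ≤ 4 * δ := by
    have hkd : κ * δ ≤ δ / 2 := by nlinarith
    rw [abs_le]; constructor <;> linarith [hTu.1, hTu.2]
  obtain ⟨a1, a2⟩ := P.mC _ hD hre him
  simp only at a1 a2
  have kp0 := mul_nonneg k0 (abs_nonneg p)
  rcases a2 with e | e
  · -- the vertex is on the upper branch
    have hpq : |p| ≤ κ * |q| := by
      have := P.lT (u + q) u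
      rwa [show u + q - u = q by ring, ← e, add_sub_cancel_left] at this
    have q0 : 0 < q := by
      rcases lt_trichotomy q 0 with h | h | h
      · exfalso
        rw [abs_of_neg h] at hpq
        have := mul_le_mul_of_nonneg_left hpq k0
        nlinarith
      · exfalso
        rw [h, abs_zero, mul_zero] at hpq
        exact hp0 ⟨abs_eq_zero.1 (le_antisymm hpq (abs_nonneg _)), h⟩
      · exact h
    have u0 : u < 0 := by linarith
    have S : ESq T B u p q := ⟨q0.le, e.symm, by rw [hp, hq]; ring_nf⟩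
    have key := last_below P.lT P.lB k0 k1 P.T0 P.B0 (δ := δ)
      (fun x h1 h2 => P.BT x (by linarith) h2) (fun x d l h1 h2 hl S' hX hlast => by
        obtain ⟨hd, hl'⟩ := side_lt P.lT P.lB k0 k1 P.T0 P.B0 h2 S'
        have hd' := abs_le.1 hd
        have hkl : κ * l ≤ l / 2 := by nlinarith
        refine nosq ⟨⟨x, T x⟩, ⟨d, -l⟩, ?_, P.mT x (by linarith) h2.le, ?_, ?_, ?_⟩
        · intro h
          have := congrArg Complex.im h
          simp at this
          linarith
        · have : (⟨x, T x⟩ : ℂ) + ⟨d, -l⟩ = ⟨x + d, B (x + d)⟩ := by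
            rw [S'.h2]; apply Complex.ext <;> simp; ring
          rw [this]
          exact P.mB _ (by linarith [hd'.1]) (by linarith [hd'.2])
        · have : (⟨x, T x⟩ : ℂ) + ⟨d, -l⟩ + I * ⟨d, -l⟩ = ⟨x + d + l, B (x + d + l)⟩ := by
            rw [← hlast]; apply Complex.ext <;> simp; ring
          rw [this]
          exact P.mB _ (by linarith [hd'.1]) hX
        · have : (⟨x, T x⟩ : ℂ) + I * ⟨d, -l⟩ = ⟨x + l, T (x + l)⟩ := by
            rw [S'.h3]; apply Complex.ext <;> simp
          rw [this]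
          exact P.mT _ (by linarith) (by linarith)) hu u0 S
    have e1 : u + p + q = v + q := by rw [hp]; ring
    have e2 : T u + p - q = B v + p := by rw [hq]; ring
    rwa [e1, e2] at key
  · -- the vertex is on the lower branch
    have h1 : |p + q| ≤ κ * |q - p| := by
      have := P.lB (u + q) v
      rw [← e, show T u + p - B v = p + q by rw [hq]; ring,
        show u + q - v = q - p by rw [hp]; ring] at this
      exact this
    have h2 : |q - p| ≤ |p| + |q| := by
      have := abs_sub q p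
      linarith
    have h3 := mul_le_mul_of_nonneg_left h2 k0
    have h4 : |p + q| ≤ κ * (|p| + |q|) := h1.trans h3
    have hqp : κ * |p| < q := by
      have t1 := abs_le.1 h4
      rcases le_total q 0 with hq0 | hq0
      · exfalso
        rw [abs_of_nonpos hq0] at t1 h4
        rcases le_total p 0 with hp0' | hp0'
        · rw [abs_of_nonpos hp0'] at t1 hql kp0
          have : (1 - κ) * (-p + -q) ≤ 0 := by linarith [t1.1]
          have h5 : -p + -q ≤ 0 := by
            by_contra hc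
            push Not at hc
            have := mul_pos (show 0 < 1 - κ by linarith) hc
            linarith
          exact hp0 ⟨by linarith, by linarith⟩
        · rw [abs_of_nonneg hp0'] at t1 hql kp0
          -- `-q ≤ κ p`, `p + q ≤ κ (p - q)`
          have : p * (1 - κ) ≤ (1 + κ) * (κ * p) := by nlinarith [t1.2]
          have h5 : p * (1 - 2 * κ - κ ^ 2) ≤ 0 := by nlinarith
          have h6 : p ≤ 0 := by
            by_contra hc
            push Not at hc
            have := mul_pos hc (show 0 < 1 - 2 * κ - κ ^ 2 by linarith)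
            linarith
          have h7 : p = 0 := le_antisymm h6 hp0'
          rw [h7, mul_zero] at hql
          exact hp0 ⟨h7, by linarith⟩
      · rw [abs_of_nonneg hq0] at t1 h4
        rcases le_total p 0 with hp0' | hp0'
        · rw [abs_of_nonpos hp0'] at t1 ⊢
          -- `-(p + q) ≤ κ (q - p)`
          have h5 : -p * (1 - κ) ≤ q * (1 + κ) := by linarith [t1.1]
          rcases lt_or_eq_of_le hp0' with g | g
          · have h6 : (-p) * (κ * (1 + κ)) < (-p) * (1 - κ) :=
              mul_lt_mul_of_pos_left (by nlinarith) (by linarith)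
            have h7 : (κ * -p) * (1 + κ) < q * (1 + κ) := by linarith
            exact lt_of_mul_lt_mul_right h7 (by linarith)
          · rw [g, neg_zero, mul_zero]
            exact lt_of_le_of_ne hq0 fun h => hp0 ⟨g, h.symm⟩
        · exfalso
          rw [abs_of_nonneg hp0'] at t1
          have : (1 - κ) * (p + q) ≤ 0 := by linarith [t1.2]
          have h5 : p + q ≤ 0 := by
            by_contra hc
            push Not at hc
            have := mul_pos (show 0 < 1 - κ by linarith) hc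
            linarith
          exact hp0 ⟨by linarith, by linarith⟩
    have h5 := (abs_le.1 (P.lB (u + q) (v + q))).2
    rw [← e, show u + q - (v + q) = -p by rw [hp]; ring, abs_neg] at h5
    have e2 : B v + p = T u + p - q := by rw [hq]; ring
    rw [e2]
    linarith

end Pos

end Pool.Agent.J4H80.CU
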