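import Pool.Agent.J4H80.CU.Core

/-! Cusps in general position. -/

set_option autoImplicit false
open Complex Set Topology Metric

namespace Pool.Agent.J4H80.CU

open Pool.Agent.H763R2 Pool.Agent.H763R2.An Pool.Agent.Y535.PEG
open Pool.Agent.H763R2.Dm (NoSq)
open Pool.Agent.H763R2.Sq (Dv Cv)
open Pool.Agent.Y450.Stab (Lip ESq)

variable {c : ℝ → ℂ} {κ δ : ℝ} {θ : ℝ → ℝ → ℝ} {g : ℤ}

/-- a branch is a part of the graph of a Lipschitz function -/
theorem graph {p : ℝ → ℂ} {s0 s1 : ℝ} (k0 : 0 ≤ κ)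
    (h : ∀ x ∈ Icc s0 s1, ∀ y ∈ Icc s0 s1, |(p y - p x).im| ≤ κ * |(p y - p x).re|) :
    ∃ F : ℝ → ℝ, Lip κ F ∧ ∀ s ∈ Icc s0 s1, (p s).im = F (p s).re := by
  classical
  set r : ℝ → ℝ := fun s => (p s).re with hr
  set f : ℝ → ℝ := fun x => (p (Function.invFunOn r (Icc s0 s1) x)).im with hf
  have hinv : ∀ x ∈ r '' Icc s0 s1, Function.invFunOn r (Icc s0 s1) x ∈ Icc s0 s1 ∧
      (p (Function.invFunOn r (Icc s0 s1) x)).re = x := fun x hx =>
    ⟨Function.invFunOn_mem hx, Function.invFunOn_eq hx⟩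
  have hL : LipschitzOnWith (Real.toNNReal κ) f (r '' Icc s0 s1) := by
    refine LipschitzOnWith.of_dist_le_mul fun x hx y hy => ?_
    rw [Real.dist_eq, Real.dist_eq, Real.coe_toNNReal _ k0]
    obtain ⟨a1, a2⟩ := hinv x hx
    obtain ⟨b1, b2⟩ := hinv y hy
    have := h _ b1 _ a1
    rwa [sub_im, sub_re, a2, b2] at this
  obtain ⟨F, hF, hE⟩ := hL.extend_real
  refine ⟨F, fun x y => ?_, fun s hs => ?_⟩
  · have := hF.dist_le_mul x y
    rwa [Real.dist_eq, Real.dist_eq, Real.coe_toNNReal _ k0] at this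
  · have hm : r s ∈ r '' Icc s0 s1 := mem_image_of_mem _ hs
    obtain ⟨a1, a2⟩ := hinv (r s) hm
    have h1 := h _ hs _ a1
    rw [sub_re, a2, show (p s).re = r s from rfl, sub_self, abs_zero, mul_zero] at h1
    have h2 := abs_eq_zero.1 (le_antisymm h1 (abs_nonneg _))
    rw [sub_im] at h2
    rw [← show r s = (p s).re from rfl, ← hE hm]
    show (p s).im = (p (Function.invFunOn r (Icc s0 s1) (r s))).im
    linarith

/-- the two branches near a cusp at `0`, without their order -/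
structure Raw (c : ℝ → ℂ) (f1 f2 : ℝ → ℝ) (κ δ t ρ : ℝ) : Prop where
  l1 : Lip κ f1
  l2 : Lip κ f2
  k0 : 0 ≤ κ
  k1 : κ ^ 2 + 2 * κ < 1
  z1 : f1 0 = 0
  z2 : f2 0 = 0
  δ0 : 0 < δ
  ρ0 : 0 < ρ
  ρ1 : ρ < 1 / 2
  c0 : c t = 0
  m1 : ∀ x, -(2 * δ) ≤ x → x ≤ 0 → (⟨x, f1 x⟩ : ℂ) ∈ range c
  m2 : ∀ x, -(2 * δ) ≤ x → x ≤ 0 → (⟨x, f2 x⟩ : ℂ) ∈ range c
  mC : ∀ z ∈ range c, |z.re| ≤ 4 * δ → |z.im| ≤ 4 * δ → z.re ≤ 0 ∧ (z.im = f1 z.re ∨ z.im = f2 z.re)
  ne : ∀ x, -(2 * δ) ≤ x → x < 0 → f1 x ≠ f2 x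
  b1 : ∀ s, t - ρ < s → s ≤ t → (c s).im = f1 (c s).re ∧ -δ ≤ (c s).re ∧ (c s).re ≤ 0
  n1 : ∀ s s', t - ρ < s → s < s' → s' ≤ t → (c s).re < (c s').re
  b2 : ∀ s, t ≤ s → s < t + ρ → (c s).im = f2 (c s).re ∧ -δ ≤ (c s).re ∧ (c s).re ≤ 0
  n2 : ∀ s s', t ≤ s → s < s' → s' < t + ρ → (c s').re < (c s).re

theorem re_lt (J : Inj c) {x y : ℝ} (k0 : 0 < κ) (hxy : x < y) (hy : y < x + 1)
    (h : |(c y - c x).im| ≤ κ * (c y - c x).re) : (c x).re < (c y).re := by
  have e1 := abs_nonneg (c y - c x).im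
  have e2 : 0 ≤ (c y - c x).re := by
    by_contra hc
    push Not at hc
    have := mul_neg_of_pos_of_neg k0 hc
    linarith
  rcases lt_or_eq_of_le e2 with g | g
  · rw [sub_re] at g; linarith
  · exfalso
    rw [← g, mul_zero] at h
    have e3 := abs_eq_zero.1 (le_antisymm h e1)
    have : c y - c x = 0 := Complex.ext g.symm e3
    exact J x y hxy hy (sub_eq_zero.1 this).symm

theorem exists_raw (L : Loop c) (J : Inj c) {t ρ : ℝ} (h0 : c t = 0) (hρ : 0 < ρ) (k0 : 0 < κ)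
    (k1 : κ ^ 2 + 2 * κ < 1)
    (h1 : ∀ x y, t - ρ < x → x < y → y ≤ t → |(c y - c x).im| ≤ κ * (c y - c x).re)
    (h2 : ∀ x y, t ≤ x → x < y → y < t + ρ → |(c x - c y).im| ≤ κ * (c x - c y).re) :
    ∃ f1 f2 δ ρ', ρ' ≤ ρ ∧ Raw c f1 f2 κ δ t ρ' := by
  have κ1 : κ < 1 := by nlinarith
  have hcont := L.cont
  -- a shorter interval
  set r : ℝ := min (ρ / 2) (1 / 8) with hr
  have r0 : 0 < r := lt_min (by positivity) (by norm_num)
  have rρ : r < ρ := (min_le_left _ _).trans_lt (by linarith)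
  have r8 : r ≤ 1 / 8 := min_le_right _ _
  have q1 : ∀ x y, t - r ≤ x → x < y → y ≤ t → (c x).re < (c y).re := fun x y hx hxy hy =>
    re_lt J k0 hxy (by linarith) (h1 x y (by linarith) hxy hy)
  have q2 : ∀ x y, t ≤ x → x < y → y ≤ t + r → (c y).re < (c x).re := by
    intro x y hx hxy hy
    have h := h2 x y hx hxy (by linarith)
    have e1 := abs_nonneg (c x - c y).im
    have e2 : 0 ≤ (c x - c y).re := by
      by_contra hc
      push Not at hc
      have := mul_neg_of_pos_of_neg k0 hc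
      linarith
    rcases lt_or_eq_of_le e2 with g | g
    · rw [sub_re] at g; linarith
    · exfalso
      rw [← g, mul_zero] at h
      have e3 := abs_eq_zero.1 (le_antisymm h e1)
      have : c x - c y = 0 := Complex.ext g.symm e3
      exact J x y hxy (by linarith) (sub_eq_zero.1 this)
  obtain ⟨f1, l1, g1⟩ := graph (p := c) (s0 := t - r) (s1 := t) k0.le (by
    intro x hx y hy
    rcases lt_trichotomy x y with h | h | h
    · have := h1 x y (by linarith [hx.1]) h hy.2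
      exact this.trans (mul_le_mul_of_nonneg_left (le_abs_self _) k0.le)
    · rw [h]; simp
    · have := h1 y x (by linarith [hy.1]) h hx.2
      rw [← neg_sub, neg_im, neg_re, abs_neg, abs_neg]
      exact this.trans (mul_le_mul_of_nonneg_left (le_abs_self _) k0.le))
  obtain ⟨f2, l2, g2⟩ := graph (p := c) (s0 := t) (s1 := t + r) k0.le (by
    intro x hx y hy
    rcases lt_trichotomy x y with h | h | h
    · have := h2 x y hx.1 h (by linarith [hy.2])
      rw [← neg_sub, neg_im, neg_re, abs_neg, abs_neg]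
      exact this.trans (mul_le_mul_of_nonneg_left (le_abs_self _) k0.le)
    · rw [h]; simp
    · have := h2 y x hy.1 h (by linarith [hx.2])
      exact this.trans (mul_le_mul_of_nonneg_left (le_abs_self _) k0.le))
  have z1 : f1 0 = 0 := by
    have := g1 t ⟨by linarith, le_rfl⟩
    rw [h0] at this
    simpa using this.symm
  have z2 : f2 0 = 0 := by
    have := g2 t ⟨le_rfl, by linarith⟩
    rw [h0] at this
    simpa using this.symm
  -- every small point of the curve is on one of the branches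
  obtain ⟨R, hR, hnear⟩ := near_par L J r0
  have X1 : (c (t - r)).re < 0 := by
    have := q1 (t - r) t le_rfl (by linarith) le_rfl
    rwa [h0, zero_re] at this
  have X2 : (c (t + r)).re < 0 := by
    have := q2 t (t + r) le_rfl (by linarith) le_rfl
    rwa [h0, zero_re] at this
  set δ : ℝ := min (R / 16) (min (-(c (t - r)).re / 2) (-(c (t + r)).re / 2)) with hδ
  have δ0 : 0 < δ := lt_min (by positivity) (lt_min (by linarith) (by linarith))
  have δ1 : δ ≤ R / 16 := min_le_left _ _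
  have δ2 : 2 * δ ≤ -(c (t - r)).re := by
    have : δ ≤ -(c (t - r)).re / 2 := (min_le_right _ _).trans (min_le_left _ _)
    linarith
  have δ3 : 2 * δ ≤ -(c (t + r)).re := by
    have : δ ≤ -(c (t + r)).re / 2 := (min_le_right _ _).trans (min_le_right _ _)
    linarith
  have hre : Continuous fun s => (c s).re := continuous_re.comp hcont
  have pt1 : ∀ x, -(2 * δ) ≤ x → x ≤ 0 → ∃ s ∈ Icc (t - r) t, c s = ⟨x, f1 x⟩ := by
    intro x hx hx0
    obtain ⟨s, hs, e⟩ := intermediate_value_Icc (a := t - r) (b := t) (by linarith)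
      hre.continuousOn (show x ∈ Icc _ _ from ⟨by linarith, by rw [h0]; exact hx0⟩)
    exact ⟨s, hs, Complex.ext e (by rw [g1 s hs]; simp only at e; rw [e])⟩
  have pt2 : ∀ x, -(2 * δ) ≤ x → x ≤ 0 → ∃ s ∈ Icc t (t + r), c s = ⟨x, f2 x⟩ := by
    intro x hx hx0
    obtain ⟨s, hs, e⟩ := intermediate_value_Icc' (a := t) (b := t + r) (by linarith)
      hre.continuousOn (show x ∈ Icc _ _ from ⟨by linarith, by rw [h0]; exact hx0⟩)
    exact ⟨s, hs, Complex.ext e (by rw [g2 s hs]; simp only at e; rw [e])⟩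
  -- the final interval
  obtain ⟨ρ2, hρ2, hsmall⟩ := Metric.continuous_iff.1 hcont t δ δ0
  have small : ∀ s, |s - t| < ρ2 → ‖c s‖ < δ := by
    intro s hs
    have := hsmall s (by rwa [Real.dist_eq])
    rwa [h0, dist_zero_right] at this
  refine ⟨f1, f2, δ, min r ρ2, (min_le_left _ _).trans rρ.le, ?_⟩
  have m1 : min r ρ2 ≤ r := min_le_left _ _
  have m2 : min r ρ2 ≤ ρ2 := min_le_right _ _
  refine ⟨l1, l2, k0.le, k1, z1, z2, δ0, lt_min r0 hρ2, by linarith, h0, ?_, ?_, ?_, ?_, ?_, ?_,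
    ?_, ?_⟩
  · intro x hx hx0
    obtain ⟨s, -, e⟩ := pt1 x hx hx0
    exact ⟨s, e⟩
  · intro x hx hx0
    obtain ⟨s, -, e⟩ := pt2 x hx hx0
    exact ⟨s, e⟩
  · rintro z ⟨s, rfl⟩ e1 e2
    have e3 : ‖c s - c t‖ < R := by
      rw [h0, sub_zero]
      have := Complex.norm_le_abs_re_add_abs_im (c s)
      linarith
    obtain ⟨n, e, he, hs⟩ := hnear s t e3
    rw [hs, L.per_int]
    rw [abs_lt] at he
    rcases le_total e 0 with g | g
    · refine ⟨?_, Or.inl (g1 _ ⟨by linarith, by linarith⟩)⟩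
      rcases lt_or_eq_of_le g with g' | g'
      · have := q1 (t + e) t (by linarith) (by linarith) le_rfl
        rw [h0, zero_re] at this
        exact this.le
      · rw [g', add_zero, h0, zero_re]
    · refine ⟨?_, Or.inr (g2 _ ⟨by linarith, by linarith⟩)⟩
      rcases lt_or_eq_of_le g with g' | g'
      · have := q2 t (t + e) le_rfl (by linarith) (by linarith)
        rw [h0, zero_re] at this
        exact this.le
      · rw [← g', add_zero, h0, zero_re]
  · intro x hx hx0 he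
    obtain ⟨s, hs, e⟩ := pt1 x hx hx0.le
    obtain ⟨s', hs', e'⟩ := pt2 x hx hx0.le
    have e2 : c s = c s' := by rw [e, e', he]
    have hlt : s < s' := by
      refine lt_of_le_of_ne (hs.2.trans hs'.1) fun h => ?_
      have : s = t := le_antisymm hs.2 (by rw [h]; exact hs'.1)
      rw [this, h0] at e
      have := congrArg Complex.re e
      simp only [zero_re] at this
      linarith
    exact J s s' hlt (by linarith [hs.1, hs'.2]) e2
  · intro s e1 e2
    have hn := (Complex.abs_re_le_norm (c s)).trans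
      (small s (by rw [abs_lt]; constructor <;> linarith)).le
    refine ⟨g1 s ⟨by linarith, e2⟩, (abs_le.1 hn).1, ?_⟩
    rcases lt_or_eq_of_le e2 with g' | g'
    · have := q1 s t (by linarith) g' le_rfl
      rw [h0, zero_re] at this
      exact this.le
    · rw [g', h0, zero_re]
  · intro s s' e1 e2 e3
    exact q1 s s' (by linarith) e2 e3
  · intro s e1 e2
    have hn := (Complex.abs_re_le_norm (c s)).trans
      (small s (by rw [abs_lt]; constructor <;> linarith)).le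
    refine ⟨g2 s ⟨e1, by linarith⟩, (abs_le.1 hn).1, ?_⟩
    rcases lt_or_eq_of_le e1 with g' | g'
    · have := q2 t s le_rfl g' (by linarith)
      rw [h0, zero_re] at this
      exact this.le
    · rw [← g', h0, zero_re]
  · intro s s' e1 e2 e3
    exact q2 s s' e1 e2 (by linarith)

namespace Raw

variable {f1 f2 : ℝ → ℝ} {t ρ : ℝ}

/-- the order of the branches -/
theorem order (R : Raw c f1 f2 κ δ t ρ) :
    (∀ x, -(2 * δ) ≤ x → x < 0 → f2 x < f1 x) ∨ (∀ x, -(2 * δ) ≤ x → x < 0 → f1 x < f2 x) := by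
  have d0 := R.δ0
  have key : ∀ x, -(2 * δ) ≤ x → x < 0 → 0 < (f1 x - f2 x) * (f1 (-δ) - f2 (-δ)) := by
    intro x hx hx0
    have hf1 := R.l1.cont
    have hf2 := R.l2.cont
    exact sign_pre (V := Ico (-(2 * δ)) 0) isPreconnected_Ico (f := fun x => f1 x - f2 x)
      (by fun_prop) (fun y hy h => R.ne y hy.1 hy.2 (sub_eq_zero.1 h)) (z := x) (w := -δ)
      ⟨hx, hx0⟩ ⟨by linarith, by linarith⟩
  have h0 := R.ne (-δ) (by linarith) (by linarith)
  rcases lt_or_gt_of_ne h0 with h | h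
  · right
    intro x hx hx0
    by_contra hc
    push Not at hc
    have := mul_nonpos_of_nonneg_of_nonpos (sub_nonneg.2 hc) (sub_nonpos.2 h.le)
    linarith [key x hx hx0]
  · left
    intro x hx hx0
    by_contra hc
    push Not at hc
    have := mul_nonpos_of_nonpos_of_nonneg (sub_nonpos.2 hc) (sub_nonneg.2 h.le)
    linarith [key x hx hx0]

theorem kl (R : Raw c f1 f2 κ δ t ρ) (hord : ∀ x, -(2 * δ) ≤ x → x < 0 → f2 x < f1 x)
    (A : Ang c (mgc c) θ g) (L : Loop c) (nosq : NoSq (range c)) {a b : ℝ} (ha : t - ρ < a)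
    (hat : a < t) (htb : t < b) (hb : b < t + ρ) {la lb : ℤ} (hla : KL θ a la) (hlb : KL θ b lb) :
    la = lb := by
  have r1 := R.ρ1
  have P : Pos c f1 f2 κ δ := ⟨R.l1, R.l2, R.k0, R.k1, R.z1, R.z2, R.δ0, hord, R.m1, R.m2, R.mC⟩
  have W : Br c f1 f2 δ a t b := ⟨hat, htb, by linarith, R.c0, fun s h1 h2 => R.b1 s (by linarith) h2,
    fun s s' h1 h2 h3 => R.n1 s s' (by linarith) h2 h3, fun s h1 h2 => R.b2 s h1 (by linarith),
    fun s s' h1 h2 h3 => R.n2 s s' h1 h2 (by linarith)⟩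
  exact W.core P A L nosq hla hlb

theorem rev (R : Raw c f1 f2 κ δ t ρ) :
    Raw (fun s => c (-s)) f2 f1 κ δ (-t) ρ where
  l1 := R.l2
  l2 := R.l1
  k0 := R.k0
  k1 := R.k1
  z1 := R.z2
  z2 := R.z1
  δ0 := R.δ0
  ρ0 := R.ρ0
  ρ1 := R.ρ1
  c0 := by simp only [neg_neg]; exact R.c0
  m1 x h1 h2 := by
    obtain ⟨s, hs⟩ := R.m2 x h1 h2
    exact ⟨-s, by simp only [neg_neg]; exact hs⟩
  m2 x h1 h2 := by
    obtain ⟨s, hs⟩ := R.m1 x h1 h2
    exact ⟨-s, by simp only [neg_neg]; exact hs⟩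
  mC z hz h1 h2 := by
    obtain ⟨s, rfl⟩ := hz
    obtain ⟨e1, e2⟩ := R.mC (c (-s)) ⟨-s, rfl⟩ h1 h2
    exact ⟨e1, e2.symm⟩
  ne x h1 h2 := (R.ne x h1 h2).symm
  b1 s h1 h2 := R.b2 (-s) (by linarith) (by linarith)
  n1 s s' h1 h2 h3 := R.n2 (-s') (-s) (by linarith) (by linarith) (by linarith)
  b2 s h1 h2 := R.b1 (-s) (by linarith) (by linarith)
  n2 s s' h1 h2 h3 := R.n1 (-s') (-s) (by linarith) (by linarith) (by linarith)

theorem kr (R : Raw c f1 f2 κ δ t ρ) (hord : ∀ x, -(2 * δ) ≤ x → x < 0 → f1 x < f2 x)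
    (A : Ang c (mgc c) θ g) (L : Loop c) (nosq : NoSq (range c)) {a b : ℝ} (ha : t - ρ < a)
    (hat : a < t) (htb : t < b) (hb : b < t + ρ) {ra rb : ℤ} (hra : KR θ a ra) (hrb : KR θ b rb) :
    ra = rb := by
  have hrange : range (fun s => c (-s)) = range c := by
    ext z
    constructor
    · rintro ⟨s, rfl⟩; exact ⟨-s, rfl⟩
    · rintro ⟨s, rfl⟩; exact ⟨-s, by simp⟩
  exact (R.rev.kl hord (Ang.rev L A) L.rev (by rw [hrange]; exact nosq) (a := -b) (b := -a)
    (by linarith) (by linarith) (by linarith) (by linarith) hrb.rev hra.rev).symm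

end Raw

end Pool.Agent.J4H80.CU
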